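import Pool.Agent.H22.KG.Win

set_option autoImplicit false
set_option maxHeartbeats 4000000

/-! # The residue classes: few integers left in all the windows around the centre -/

namespace Pool.Agent.H22.KG

open Finset Filter Topology
open Pool.Agent.TH101.RG (V0)
open Pool.Agent.H22.RC

open scoped Classical

/-- growth -/
theorem ev_win (B x c : ℝ) (hB : 1 < B) (hx : 0 < x) (hc : 0 < c) : ∀ᶠ y : ℕ in atTop,
    c * (y * (Real.log y) ^ 2 * Real.log (Real.log (Real.log y)) / (Real.log (Real.log y)) ^ 2) ≤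
      y * (Real.log y) ^ 2 ∧
    (y : ℝ) * (Real.log y) ^ 2 * Real.log y ≤ x * (y : ℝ) ^ B ∧ (y : ℝ) * (Real.log y) ^ 2 ≤ (y : ℝ) ^ B ∧
    y + 1 ≤ (y : ℝ) ^ B := by
  have t1 : Tendsto (fun y : ℕ => Real.log (y : ℝ)) atTop atTop :=
    Real.tendsto_log_atTop.comp tendsto_natCast_atTop_atTop
  have t2 : Tendsto (fun y : ℕ => Real.log (Real.log y)) atTop atTop := Real.tendsto_log_atTop.comp t1
  have h1 : ∀ᶠ t : ℝ in atTop, c * Real.log t ≤ t ^ 2 := by
    have := Real.isLittleO_log_id_atTop.def (show (0 : ℝ) < 1 / c by positivity)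
    filter_upwards [this, eventually_ge_atTop 1] with t h2 h3
    rw [Real.norm_of_nonneg (Real.log_nonneg h3), id, Real.norm_of_nonneg (by linarith)] at h2
    calc c * Real.log t ≤ c * (1 / c * t) := by gcongr
      _ = t := by field_simp
      _ ≤ t ^ 2 := by nlinarith
  have h2 : ∀ᶠ t : ℝ in atTop, t ^ 3 ≤ min x 1 * Real.exp ((B - 1) * t) / 2 := by
    have := (isLittleO_pow_exp_pos_mul_atTop (k := 3) (show (0 : ℝ) < B - 1 by linarith)).def
      (show (0 : ℝ) < min x 1 / 2 by positivity)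
    filter_upwards [this, eventually_ge_atTop 1] with t h2 h3
    rw [Real.norm_of_nonneg (by positivity), Real.norm_of_nonneg (Real.exp_pos _).le] at h2
    linarith
  filter_upwards [t2.eventually h1, t1.eventually h2, t1.eventually_ge_atTop 1, t2.eventually_ge_atTop 1,
    eventually_ge_atTop 3] with y g1 g2 g3 g4 g5
  have hy0 : (0 : ℝ) < y := by exact_mod_cast (by omega : 0 < y)
  have hy3 : (3 : ℝ) ≤ y := by exact_mod_cast g5
  have e1 : (y : ℝ) ^ B = y * Real.exp ((B - 1) * Real.log y) := by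
    rw [show (B : ℝ) = 1 + (B - 1) by ring, Real.rpow_add hy0, Real.rpow_one]
    congr 1
    rw [Real.rpow_def_of_pos hy0]
    congr 1
    ring
  have m1 := min_le_left x 1
  have m2 := min_le_right x 1
  have he := Real.exp_pos ((B - 1) * Real.log y)
  have hm0 : 0 < min x 1 := lt_min hx one_pos
  have g6 : (Real.log y) ^ 3 ≤ x * Real.exp ((B - 1) * Real.log y) := by nlinarith
  have g7 : (Real.log y) ^ 3 ≤ Real.exp ((B - 1) * Real.log y) / 2 := by nlinarith
  have g8 : (1 : ℝ) ≤ (Real.log y) ^ 3 := one_le_pow₀ g3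
  have g9 : (Real.log y) ^ 2 ≤ (Real.log y) ^ 3 := pow_le_pow_right₀ g3 (by norm_num)
  refine ⟨?_, ?_, ?_, ?_⟩
  · calc c * (y * (Real.log y) ^ 2 * Real.log (Real.log (Real.log y)) / (Real.log (Real.log y)) ^ 2)
        = y * (Real.log y) ^ 2 * (c * Real.log (Real.log (Real.log y)) / (Real.log (Real.log y)) ^ 2) := by ring
      _ ≤ y * (Real.log y) ^ 2 * 1 := by
          apply mul_le_mul_of_nonneg_left _ (by positivity)
          rw [div_le_one (by positivity)]
          exact g1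
      _ = _ := mul_one _
  · rw [e1]
    calc (y : ℝ) * (Real.log y) ^ 2 * Real.log y = y * (Real.log y) ^ 3 := by ring
      _ ≤ y * (x * Real.exp ((B - 1) * Real.log y)) := by gcongr
      _ = _ := by ring
  · rw [e1]
    apply mul_le_mul_of_nonneg_left _ hy0.le
    linarith
  · rw [e1]
    nlinarith

/-- the expected number of integers left in the window of radius `H` -/
noncomputable def bet (y : ℕ) (H : ℕ) : ℝ :=
  (1 + Real.log (H / y) / Real.log (Real.log y)) * (H * (Real.log (Real.log y)) ^ 2 /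
    ((Real.log y) ^ 2 * Real.log (Real.log (Real.log y))))

/-- the integers left in the window of radius `H` -/
noncomputable def sv (Q : Finset ℕ) (b : ℕ → ℤ) (H : ℕ) : Finset ℤ :=
  (Icc (-(H : ℤ)) H).filter (fun j => ∀ p ∈ Q, ¬ (p : ℤ) ∣ j - b p)

theorem classesK (S₀ T C₁ : ℝ) (hS₀ : 0 < S₀) (hT : 0 < T) (hC₁ : 0 ≤ C₁) :
    ∃ c Cw : ℝ, 0 < c ∧ 0 < Cw ∧ ∀ᶠ y : ℕ in atTop, ∀ F : Finset ℕ, (∀ q ∈ F, q.Prime) →
      ∑ q ∈ F, (1 : ℝ) / q ≤ 1 →
      ∑ q ∈ F.filter (fun q : ℕ => V0 y < Real.log q), (1 : ℝ) / q ≤ C₁ / Real.log y →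
      ∀ K : ℕ, y ≤ K →
      (K : ℝ) ≤ c * (y * (Real.log y) ^ 2 * Real.log (Real.log (Real.log y)) / (Real.log (Real.log y)) ^ 2) →
      ∀ (I : ℕ) (kk : ℕ → ℝ), (∀ i, 0 < kk i) → kk 0 = 1 → ∑ i ∈ range (I + 1), 1 / kk i ≤ S₀ →
      (2 : ℝ) ^ I * K ≤ y * Real.exp (V0 y) →
      ∃ b : ℕ → ℤ, ((sv (PQ y F) b K).card : ℝ) ≤ T * y ∧
        ∑ i ∈ range (I + 1), 1 / (kk i * bet y (2 ^ i * K)) * ((sv (PQ y F) b (2 ^ i * K)).card : ℝ) ≤ Cw := by
  obtain ⟨Cw, hCw, yw, hwin⟩ := windowL 1 C₁ hC₁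
  refine ⟨T / (3 * (Cw * S₀)), Cw * S₀, by positivity, by positivity, ?_⟩
  filter_upwards [eventually_ge_atTop yw, eventually_ge_atTop 3,
    (Real.tendsto_log_atTop.comp (Real.tendsto_log_atTop.comp tendsto_natCast_atTop_atTop)).eventually_ge_atTop (2 : ℝ),
    ev_win 2 1 (T / (3 * (Cw * S₀))) (by norm_num) one_pos (by positivity)]
    with y g4 g6 g7 g2 F hF hFs hFt K hK1 hK2 I kk hkk hkk0 hks hI
  simp only [Function.comp] at g7
  obtain ⟨w1, -, -, -⟩ := g2
  set c := T / (3 * (Cw * S₀)) with hc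
  have hy0 : (0 : ℝ) < y := by exact_mod_cast (by omega : 0 < y)
  have hly : 0 < Real.log y := Real.log_pos (by exact_mod_cast (by omega : 1 < y))
  have hlly : 0 < Real.log (Real.log y) := by linarith
  have hllly : 0 < Real.log (Real.log (Real.log y)) := Real.log_pos (by linarith)
  have hK0 : 0 < K := by omega
  set Q := PQ y F with hQ
  set P := GP y F with hP
  have hPQ : P ⊆ Q := fun p hp => (mem_GP.1 hp).1
  have hPp : ∀ p ∈ P, p.Prime := fun p hp => (mem_PQ.1 (hPQ hp)).2.1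
  set Qp := ∏ p ∈ P, (1 - 1 / (p : ℝ)) with hQp
  have hQp0 : 0 < Qp := prod_pos fun p hp => one_sub_pos (hPp p hp)
  -- the radii
  have hHK : ∀ i, K ≤ 2 ^ i * K := fun i => Nat.le_mul_of_pos_left _ (by positivity)
  have hHI : ∀ i ∈ range (I + 1), 2 ^ i * K ≤ 2 ^ I * K := fun i hi =>
    Nat.mul_le_mul_right _ (Nat.pow_le_pow_right (by norm_num) (by rw [mem_range] at hi; omega))
  have hbpos : ∀ i, 0 < bet y (2 ^ i * K) := by
    intro i
    have h1 : (1 : ℝ) ≤ ((2 ^ i * K : ℕ) : ℝ) / y := by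
      rw [one_le_div hy0]
      exact_mod_cast hK1.trans (hHK i)
    have h2 : 0 ≤ Real.log (((2 ^ i * K : ℕ) : ℝ) / y) := Real.log_nonneg h1
    have h3 : (0 : ℝ) < ((2 ^ i * K : ℕ) : ℝ) := by exact_mod_cast (by positivity : 0 < 2 ^ i * K)
    unfold bet
    positivity
  set a : ℕ → ℝ := fun i => 1 / (kk i * bet y (2 ^ i * K)) with ha
  have ha0 : ∀ i, 0 < a i := fun i => by
    have := hkk i
    have := hbpos i
    simp only [ha]
    positivity
  set f : ℤ → ℝ := fun m => -∑ i ∈ range (I + 1), (if m ∈ Icc (-((2 ^ i * K : ℕ) : ℤ)) ((2 ^ i * K : ℕ) : ℤ) then a i else 0)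
    with hf
  set R : ℕ → Finset ℤ := fun H => (Icc (-(H : ℤ)) H).filter (fun k => ∀ p ∈ Q, p ∉ P → ¬ (p : ℤ) ∣ k) with hR
  obtain ⟨b₀, hb₀⟩ := avg_classes P hPp (R (2 ^ I * K)) f
  set b : ℕ → ℤ := fun p => if p ∈ P then b₀ p else 0 with hb
  have hfilt : ∀ I : Finset ℤ, (I.filter (fun k => ∀ p ∈ Q, p ∉ P → ¬ (p : ℤ) ∣ k)).filter
      (fun j => ∀ p ∈ P, ¬ (p : ℤ) ∣ j - b₀ p) = I.filter (fun j => ∀ p ∈ Q, ¬ (p : ℤ) ∣ j - b p) := by
    intro I
    ext j
    rw [mem_filter, mem_filter, mem_filter]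
    constructor
    · rintro ⟨⟨h1, h2⟩, h3⟩
      refine ⟨h1, fun p hp => ?_⟩
      simp only [hb]
      by_cases hpP : p ∈ P
      · rw [if_pos hpP]; exact h3 p hpP
      · rw [if_neg hpP, sub_zero]; exact h2 p hp hpP
    · rintro ⟨h1, h2⟩
      simp only [hb] at h2
      refine ⟨⟨h1, fun p hp hpP => ?_⟩, fun p hpP => ?_⟩
      · have := h2 p hp
        rwa [if_neg hpP, sub_zero] at this
      · have := h2 p (hPQ hpP)
        rwa [if_pos hpP] at this
  have hsum : ∀ A : Finset ℤ, ∑ m ∈ A, f m =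
      -∑ i ∈ range (I + 1), a i * ((A.filter (fun m => m ∈ Icc (-((2 ^ i * K : ℕ) : ℤ)) ((2 ^ i * K : ℕ) : ℤ))).card : ℝ) := by
    intro A
    simp only [hf]
    rw [sum_neg_distrib, sum_comm]
    congr 1
    apply sum_congr rfl
    intro i _
    rw [← sum_filter, sum_const, nsmul_eq_mul, mul_comm]
  have hsub : ∀ i ∈ range (I + 1), Icc (-((2 ^ i * K : ℕ) : ℤ)) ((2 ^ i * K : ℕ) : ℤ) ⊆
      Icc (-((2 ^ I * K : ℕ) : ℤ)) ((2 ^ I * K : ℕ) : ℤ) := by
    intro i hi
    have h1 : ((2 ^ i * K : ℕ) : ℤ) ≤ ((2 ^ I * K : ℕ) : ℤ) := by exact_mod_cast hHI i hi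
    exact Icc_subset_Icc (by linarith) h1
  have hRi : ∀ i ∈ range (I + 1), (R (2 ^ I * K)).filter
      (fun m => m ∈ Icc (-((2 ^ i * K : ℕ) : ℤ)) ((2 ^ i * K : ℕ) : ℤ)) = R (2 ^ i * K) := by
    intro i hi
    ext m
    simp only [hR, mem_filter]
    constructor
    · rintro ⟨⟨-, h2⟩, h3⟩; exact ⟨h3, h2⟩
    · rintro ⟨h3, h2⟩; exact ⟨⟨hsub i hi h3, h2⟩, h3⟩
  have hSi : ∀ i ∈ range (I + 1), ((Icc (-((2 ^ I * K : ℕ) : ℤ)) ((2 ^ I * K : ℕ) : ℤ)).filter
      (fun j => ∀ p ∈ Q, ¬ (p : ℤ) ∣ j - b p)).filter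
      (fun m => m ∈ Icc (-((2 ^ i * K : ℕ) : ℤ)) ((2 ^ i * K : ℕ) : ℤ)) = sv Q b (2 ^ i * K) := by
    intro i hi
    ext m
    simp only [sv, mem_filter]
    constructor
    · rintro ⟨⟨-, h2⟩, h3⟩; exact ⟨h3, h2⟩
    · rintro ⟨h3, h2⟩; exact ⟨⟨hsub i hi h3, h2⟩, h3⟩
  rw [hsum, hsum] at hb₀
  have e1 : (R (2 ^ I * K)).filter (fun j => ∀ p ∈ P, ¬ (p : ℤ) ∣ j - b₀ p) =
      (Icc (-((2 ^ I * K : ℕ) : ℤ)) ((2 ^ I * K : ℕ) : ℤ)).filter (fun j => ∀ p ∈ Q, ¬ (p : ℤ) ∣ j - b p) :=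
    hfilt _
  rw [e1, sum_congr rfl (fun i hi => by rw [hRi i hi]), mul_neg, neg_le_neg_iff,
    sum_congr rfl (fun i hi => by rw [hSi i hi])] at hb₀
  have hmain : ∑ i ∈ range (I + 1), a i * ((sv Q b (2 ^ i * K)).card : ℝ) ≤ Cw * S₀ := by
    refine hb₀.trans ?_
    rw [mul_sum]
    calc ∑ i ∈ range (I + 1), Qp * (a i * ((R (2 ^ i * K)).card : ℝ)) ≤ ∑ i ∈ range (I + 1), Cw * (1 / kk i) := by
          apply sum_le_sum
          intro i hi
          have h1 := hwin y g4 F hF hFs hFt (2 ^ i * K) (hK1.trans (hHK i)) (by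
            refine le_trans ?_ hI
            push_cast
            have : (2 : ℝ) ^ i ≤ 2 ^ I := pow_le_pow_right₀ (by norm_num) (by rw [mem_range] at hi; omega)
            gcongr)
          have h2 := hbpos i
          have h3 := hkk i
          have h4 : ((R (2 ^ i * K)).card : ℝ) * Qp ≤ Cw * bet y (2 ^ i * K) := by
            refine h1.trans (le_of_eq ?_)
            unfold bet
            ring
          calc Qp * (a i * ((R (2 ^ i * K)).card : ℝ)) = a i * (((R (2 ^ i * K)).card : ℝ) * Qp) := by ring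
            _ ≤ a i * (Cw * bet y (2 ^ i * K)) := mul_le_mul_of_nonneg_left h4 (ha0 i).le
            _ = Cw * (1 / kk i) := by
                simp only [ha]
                field_simp
      _ = Cw * ∑ i ∈ range (I + 1), 1 / kk i := by rw [mul_sum]
      _ ≤ Cw * S₀ := mul_le_mul_of_nonneg_left hks hCw.le
  refine ⟨b, ?_, hmain⟩
  -- the inner window
  have h1 : a 0 * ((sv Q b K).card : ℝ) ≤ Cw * S₀ := by
    refine le_trans ?_ hmain
    have h2 := single_le_sum (f := fun i => a i * ((sv Q b (2 ^ i * K)).card : ℝ)) (s := range (I + 1))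
      (fun i _ => mul_nonneg (ha0 i).le (Nat.cast_nonneg _)) (mem_range.2 (Nat.succ_pos I))
    simp only [pow_zero, one_mul] at h2
    exact h2
  have hbet0 : bet y K ≤ 3 * c * y := by
    unfold bet
    have h3 : Real.log ((K : ℝ) / y) ≤ 2 * Real.log (Real.log y) := by
      have h4 : (K : ℝ) / y ≤ (Real.log y) ^ 2 := by
        rw [div_le_iff₀ hy0]
        refine (hK2.trans w1).trans (le_of_eq (by ring))
      have h5 : (0 : ℝ) < (K : ℝ) / y := by
        have : (0 : ℝ) < K := by exact_mod_cast hK0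
        positivity
      have h6 := Real.log_le_log h5 h4
      rw [Real.log_pow] at h6
      exact_mod_cast h6
    have h7 : 1 + Real.log ((K : ℝ) / y) / Real.log (Real.log y) ≤ 3 := by
      have : Real.log ((K : ℝ) / y) / Real.log (Real.log y) ≤ 2 := by
        rw [div_le_iff₀ hlly]; exact h3
      linarith
    have h8 : (K : ℝ) * (Real.log (Real.log y)) ^ 2 / ((Real.log y) ^ 2 * Real.log (Real.log (Real.log y))) ≤ c * y := by
      calc (K : ℝ) * (Real.log (Real.log y)) ^ 2 / ((Real.log y) ^ 2 * Real.log (Real.log (Real.log y)))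
          ≤ (c * (y * (Real.log y) ^ 2 * Real.log (Real.log (Real.log y)) / (Real.log (Real.log y)) ^ 2)) *
          (Real.log (Real.log y)) ^ 2 / ((Real.log y) ^ 2 * Real.log (Real.log (Real.log y))) := by gcongr
        _ = _ := by field_simp
    have h9 : 0 ≤ (K : ℝ) * (Real.log (Real.log y)) ^ 2 / ((Real.log y) ^ 2 * Real.log (Real.log (Real.log y))) := by
      positivity
    calc _ ≤ 3 * (c * y) := mul_le_mul h7 h8 h9 (by norm_num)
      _ = _ := by ring
  have hb0 := hbpos 0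
  rw [pow_zero, one_mul] at hb0
  have ha0' : a 0 = 1 / bet y K := by
    simp only [ha, hkk0, one_mul, pow_zero]
  rw [ha0', one_div, inv_mul_le_iff₀ hb0] at h1
  calc ((sv Q b K).card : ℝ) ≤ bet y K * (Cw * S₀) := h1
    _ ≤ (3 * c * y) * (Cw * S₀) := by gcongr
    _ = T * y := by rw [hc]; field_simp

end Pool.Agent.H22.KG
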