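import Pool.Agent.H22.KG.Cls
import Pool.Graph.R_seed8.TH101.RG.Cov

set_option autoImplicit false
set_option maxHeartbeats 4000000

/-! # The residue classes for the big modulus -/

namespace Pool.Agent.H22.KG

open Finset Filter Topology
open Pool.Agent.TH101.RG (V0 vfacts sum_union_le')
open Pool.Agent.H378R2
open Pool.Agent.H312R2.RG (cov_ev ev_ff)
open Pool.Agent.H256R2.SC (ff)
open Pool.Agent.H22.RC

open scoped Classical

/-- growth -/
theorem ev_V0 : ∀ᶠ A : ℝ in atTop, 4 * Real.sqrt A + 2 * Real.log A ≤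
    (A / 2) * (Real.log (Real.log A) / 2) / (10 * Real.log A) := by
  have h1 : ∀ᶠ A : ℝ in atTop, Real.log A ≤ 1 / 400 * A ^ (1 / 4 : ℝ) := by
    have := (isLittleO_log_rpow_atTop (show (0 : ℝ) < 1 / 4 by norm_num)).def (show (0 : ℝ) < 1 / 400 by norm_num)
    filter_upwards [this, eventually_ge_atTop 1] with A h2 h3
    rwa [Real.norm_of_nonneg (Real.log_nonneg h3), Real.norm_of_nonneg (by positivity)] at h2
  have t2 : Tendsto (fun y : ℝ => Real.log (Real.log y)) atTop atTop :=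
    Real.tendsto_log_atTop.comp Real.tendsto_log_atTop
  filter_upwards [h1, eventually_ge_atTop 1, Real.tendsto_log_atTop.eventually_ge_atTop 1,
    t2.eventually_ge_atTop 1] with A h2 h3 h4 h5
  have hA0 : 0 < A := by linarith
  set q := A ^ (1 / 4 : ℝ) with hq
  have hq1 : 1 ≤ q := Real.one_le_rpow h3 (by norm_num)
  have hq4 : A = q ^ 4 := by
    rw [hq, ← Real.rpow_natCast, ← Real.rpow_mul hA0.le]
    norm_num
  have hs : Real.sqrt A = q ^ 2 := by
    rw [Real.sqrt_eq_rpow, hq, ← Real.rpow_natCast, ← Real.rpow_mul hA0.le]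
    norm_num
  rw [hs, le_div_iff₀ (by positivity)]
  have hl0 : 0 < Real.log A := by linarith
  have h6 : 4 * q ^ 2 + 2 * Real.log A ≤ 5 * q ^ 2 := by nlinarith
  calc (4 * q ^ 2 + 2 * Real.log A) * (10 * Real.log A) ≤ (5 * q ^ 2) * (10 * (1 / 400 * q)) := by gcongr
    _ ≤ (q ^ 4 / 2) * (1 / 2) := by nlinarith [pow_pos (show 0 < q by linarith) 3, sq_nonneg (q - 1)]
    _ ≤ (A / 2) * (Real.log (Real.log A) / 2) := by
        rw [← hq4]
        gcongr

theorem classesKX (S₀ T : ℝ) (hS₀ : 0 < S₀) (hT : 0 < T) :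
    ∃ (Z : ℕ) (c Cw : ℝ), 0 < c ∧ 0 < Cw ∧ ∀ᶠ X : ℝ in atTop, ∀ (ps : ℕ) (S : Finset ℕ), GoodP Z ps → GoodS X S →
      ∀ (I : ℕ) (kk : ℕ → ℝ), (∀ i, 0 < kk i) → kk 0 = 1 → ∑ i ∈ range (I + 1), 1 / kk i ≤ S₀ →
      (2 : ℝ) ^ I ≤ Real.exp (4 * Real.sqrt (Real.log (Real.log X))) →
      ∃ (r K : ℕ), c * ff X ≤ K ∧ (K : ℝ) ≤ ff X ∧ yy X ≤ K ∧ 1 ≤ K ∧ 2 ^ I * K ≤ r ∧
        (((Icc (-(K : ℤ)) K).filter (fun m => ∀ p ∈ PW X S ps, ¬ (p : ℤ) ∣ (r : ℤ) + m)).card : ℝ) ≤
          T * Real.log X ∧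
        ∑ i ∈ range (I + 1), 1 / (kk i * bet (yy X) (2 ^ i * K)) *
          (((Icc (-((2 ^ i * K : ℕ) : ℤ)) ((2 ^ i * K : ℕ) : ℤ)).filter
            (fun m => ∀ p ∈ PW X S ps, ¬ (p : ℤ) ∣ (r : ℤ) + m)).card : ℝ) ≤ Cw := by
  obtain ⟨c, Cw, hc, hCw, hcls⟩ := classesK S₀ T 8 hS₀ hT (by norm_num)
  set c₂ : ℝ := min (1 / 8000) (c / 16000) with hc₂
  have hc₂0 : 0 < c₂ := lt_min (by norm_num) (by positivity)
  have hc₂1 : c₂ ≤ 1 / 8000 := min_le_left _ _
  have hc₂2 : c₂ ≤ c / 16000 := min_le_right _ _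
  obtain ⟨A₀, hev⟩ := cov_ev (c₂ / 10) (by positivity)
  obtain ⟨y₃, hv⟩ := eventually_atTop.1 vfacts
  obtain ⟨y₁, hy₁⟩ := eventually_atTop.1 hcls
  obtain ⟨η, hηd⟩ : ∃ η : ℝ, η = 1 := ⟨1, rfl⟩
  have hη : 0 < η := by rw [hηd]; norm_num
  refine ⟨⌈2 / η⌉₊ + 1, c₂ / 2, Cw, by positivity, hCw, ?_⟩
  have t1 := Real.tendsto_log_atTop
  have t2 : Tendsto (fun y : ℝ => Real.log (Real.log y)) atTop atTop := t1.comp t1
  filter_upwards [t2.eventually_ge_atTop A₀, t1.eventually_ge_atTop (2000 * ((y₁ : ℝ) + 2)),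
    t1.eventually_ge_atTop (2000 * (|y₃| + 2)), t2.eventually_ge_atTop 100, t2.eventually_ge_atTop (12 / η),
    ev_ff c₂ hc₂0, eventually_gt_atTop 0, t2.eventually ev_V0] with X e1 e2 e3 e4 e5 e6 hX0 e8
  intro ps S hps hS I kk hkk hkk0 hks hI
  set t := Real.log X with ht
  have ht0 : 0 < t := by
    have : (0 : ℝ) ≤ y₁ := Nat.cast_nonneg _
    linarith
  set A := Real.log t with hA
  obtain ⟨a1, a2, a3, a4, a5, a6, a7, a8, a9⟩ := hev A e1
  have hTe : t = Real.exp A := by rw [hA, Real.exp_log ht0]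
  set b := Real.log A with hb
  set D' := Real.log b with hD
  have hff : ff X = t * A ^ 2 * D' / b ^ 2 := by
    unfold Pool.Agent.H256R2.SC.ff
    rfl
  have hA0' : 0 < A := by linarith
  have hb0 : 0 < b := by linarith
  have hD0 : 0 < D' := by linarith
  -- y
  set y := yy X with hy
  have hyT : (y : ℝ) ≤ t / 1000 := Nat.floor_le (by positivity)
  have hyT2 : t / 2000 ≤ y := by
    have h1 : t / 1000 < (y : ℝ) + 1 := Nat.lt_floor_add_one _
    have h2 : 1 ≤ t / 2000 := by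
      rw [le_div_iff₀ (by norm_num), hTe]; linarith
    linarith [show t / 1000 = t / 2000 + t / 2000 by ring]
  have hyy1 : y₁ ≤ y := by
    have : (y₁ : ℝ) ≤ y := by linarith
    exact_mod_cast this
  have hyy3 : y₃ ≤ y := by
    have := le_abs_self y₃
    linarith
  obtain ⟨hv1, hv2, hv3⟩ := hv y hyy3
  have hy0 : (0 : ℝ) < y := by
    have : (0 : ℝ) ≤ y₁ := Nat.cast_nonneg _
    linarith
  have hly1 : Real.log y ≤ A := by
    rw [hA]; apply Real.log_le_log hy0; linarith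
  have hly2 : A / 2 ≤ Real.log y := by
    have h1 : Real.log (t / 2000) ≤ Real.log y := Real.log_le_log (by positivity) hyT2
    rw [Real.log_div ht0.ne' (by norm_num)] at h1
    linarith
  have hly0 : 0 < Real.log y := by linarith
  have hl2y1 : Real.log (Real.log y) ≤ b := Real.log_le_log hly0 hly1
  have hl2y2 : b / 2 ≤ Real.log (Real.log y) := by
    have h1 : Real.log (A / 2) ≤ Real.log (Real.log y) := Real.log_le_log (by positivity) hly2
    rw [Real.log_div hA0'.ne' (by norm_num)] at h1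
    linarith
  have hl2y0 : 0 < Real.log (Real.log y) := by linarith
  have hl3y2 : D' / 2 ≤ Real.log (Real.log (Real.log y)) := by
    have h1 : Real.log (b / 2) ≤ Real.log (Real.log (Real.log y)) := Real.log_le_log (by positivity) hl2y2
    rw [Real.log_div hb0.ne' (by norm_num)] at h1
    linarith
  have hl3y0 : 0 < Real.log (Real.log (Real.log y)) := by linarith
  -- K
  set K : ℕ := ⌊c₂ * ff X⌋₊ with hK
  have hff0 : 0 ≤ c₂ * ff X := by rw [hff]; positivity
  have hKle : (K : ℝ) ≤ c₂ * ff X := Nat.floor_le hff0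
  have hT1 : 10 * t ≤ c₂ * ff X := by
    rw [hff, mul_div_assoc', le_div_iff₀ (by positivity)]
    have h1 : 10 * t * b ^ 2 ≤ 10 * t * (c₂ / 10 * A ^ 2) := by gcongr
    have h2 : t * (c₂ * A ^ 2) ≤ t * (c₂ * A ^ 2) * D' := by
      have : 0 ≤ t * (c₂ * A ^ 2) := by positivity
      nlinarith
    linarith [show c₂ * (t * A ^ 2 * D') = t * (c₂ * A ^ 2) * D' by ring,
      show 10 * t * (c₂ / 10 * A ^ 2) = t * (c₂ * A ^ 2) by ring]
  have hT2000 : 2000 ≤ t := by rw [hTe]; exact a9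
  have hyK : y ≤ K := by
    rw [hK]
    apply Nat.le_floor
    linarith
  have hKlow : c₂ * ff X < (K : ℝ) + 1 := Nat.lt_floor_add_one _
  have hKc : (K : ℝ) ≤ c * (y * (Real.log y) ^ 2 * Real.log (Real.log (Real.log y)) / (Real.log (Real.log y)) ^ 2) := by
    refine hKle.trans ?_
    have h1 : t / 2000 * (A / 2) ^ 2 * (D' / 2) / b ^ 2 ≤
        y * (Real.log y) ^ 2 * Real.log (Real.log (Real.log y)) / (Real.log (Real.log y)) ^ 2 := by
      gcongr
    calc c₂ * ff X ≤ c / 16000 * ff X := by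
          apply mul_le_mul_of_nonneg_right hc₂2
          rw [hff]; positivity
      _ = c * (t / 2000 * (A / 2) ^ 2 * (D' / 2) / b ^ 2) := by rw [hff]; ring
      _ ≤ _ := by gcongr
  have hKff : (K : ℝ) ≤ ff X := by
    refine hKle.trans ?_
    have : 0 ≤ ff X := by rw [hff]; positivity
    nlinarith
  have hI2 : (2 : ℝ) ^ I * K ≤ y * Real.exp (V0 y) := by
    have h1 : (K : ℝ) ≤ y * A ^ 2 := by
      have h2 : (K : ℝ) ≤ c₂ * ff X := hKle
      have h3 : c₂ * ff X ≤ 1 / 8000 * (t * A ^ 2) := by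
        rw [hff]
        have h4 : t * A ^ 2 * D' / b ^ 2 ≤ t * A ^ 2 := by
          rw [div_le_iff₀ (by positivity)]
          have h5 : D' ≤ b ^ 2 := by
            have := Real.log_le_sub_one_of_pos hb0
            nlinarith
          have h6 : 0 ≤ t * A ^ 2 := by positivity
          exact mul_le_mul_of_nonneg_left h5 h6
        have h7 : 0 ≤ t * A ^ 2 * D' / b ^ 2 := by positivity
        exact mul_le_mul hc₂1 h4 h7 (by norm_num)
      have h8 : t * A ^ 2 ≤ 2000 * (y * A ^ 2) := by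
        have : 0 < A ^ 2 := by positivity
        nlinarith
      have h9 : 0 < y * A ^ 2 := by positivity
      linarith
    have h2 : A ^ 2 = Real.exp (2 * b) := by
      rw [hb, show 2 * Real.log A = Real.log (A ^ 2) by rw [Real.log_pow]; push_cast; ring,
        Real.exp_log (by positivity)]
    have h3 : 4 * Real.sqrt A + 2 * b ≤ V0 y := by
      refine e8.trans ?_
      unfold V0
      gcongr
    calc (2 : ℝ) ^ I * K ≤ Real.exp (4 * Real.sqrt A) * (y * A ^ 2) := by gcongr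
      _ = y * Real.exp (4 * Real.sqrt A + 2 * b) := by rw [h2, Real.exp_add]; ring
      _ ≤ y * Real.exp (V0 y) := by
          apply mul_le_mul_of_nonneg_left (Real.exp_le_exp.2 h3) hy0.le
  -- the set F
  set Ps : Finset ℕ := if ps.Prime then {ps} else ∅ with hPs
  have hPs2 : ∀ q, q ∈ Ps ↔ q = ps ∧ ps.Prime := by
    intro q
    rw [hPs]
    split_ifs with h
    · rw [mem_singleton]; exact ⟨fun h1 => ⟨h1, h⟩, fun h1 => h1.1⟩
    · exact ⟨fun h1 => absurd h1 (notMem_empty _), fun h1 => absurd h1.2 h⟩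
  set F : Finset ℕ := S ∪ Ps with hF
  have hPWF : PW X S ps = PQ y F := by
    ext p
    rw [mem_PW, mem_PQ, hF, mem_union, hPs2]
    constructor
    · rintro ⟨h1, h2, h3, h4⟩
      exact ⟨h1, h2, by rintro (h | h); exacts [h3 h, h4 h.1]⟩
    · rintro ⟨h1, h2, h3⟩
      refine ⟨h1, h2, fun h => h3 (Or.inl h), fun h => h3 (Or.inr ⟨h, h ▸ h2⟩)⟩
  have hpos : ∀ i : ℕ, 0 ≤ (1 : ℝ) / (i : ℝ) := fun i => by positivity
  have hSsum : ∑ q ∈ S, (1 : ℝ) / q ≤ 6 / A ^ 2 := hS.2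
  have hPscard : Ps.card ≤ 1 := by rw [hPs]; split_ifs <;> simp
  have hFp : ∀ q ∈ F, q.Prime := by
    intro q hq
    rw [hF, mem_union] at hq
    rcases hq with h | h
    · exact (hS.1 q h).1
    · obtain ⟨h1, h2⟩ := (hPs2 q).1 h
      rw [h1]; exact h2
  have hFsum : ∑ q ∈ F, (1 : ℝ) / q ≤ η := by
    have h1 : ∑ q ∈ F, (1 : ℝ) / q ≤ ∑ q ∈ S, (1 : ℝ) / q + ∑ q ∈ Ps, (1 : ℝ) / q := sum_union_le' _ hpos
    have h2 : ∑ q ∈ Ps, (1 : ℝ) / q ≤ η / 2 := by
      have h3 : ∑ q ∈ Ps, (1 : ℝ) / q ≤ Ps.card • (η / 2) := by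
        apply sum_le_card_nsmul
        intro q hq
        obtain ⟨h4, h5⟩ := (hPs2 q).1 hq
        have h6 : ⌈2 / η⌉₊ + 1 < ps := by
          rcases hps with h | h
          · rw [h] at h5; exact absurd h5 Nat.not_prime_one
          · exact h.2
        have h7 : 2 / η ≤ ps := (Nat.le_ceil _).trans (by exact_mod_cast (by omega : ⌈2 / η⌉₊ ≤ ps))
        have h8 : (0 : ℝ) < ps := lt_of_lt_of_le (by positivity) h7
        rw [h4, div_le_iff₀ h8]
        rw [div_le_iff₀ hη] at h7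
        linarith
      rw [nsmul_eq_mul] at h3
      have h9 : (Ps.card : ℝ) ≤ 1 := by exact_mod_cast hPscard
      have h10 : (0 : ℝ) ≤ η / 2 := by positivity
      calc _ ≤ (Ps.card : ℝ) * (η / 2) := h3
        _ ≤ 1 * (η / 2) := mul_le_mul_of_nonneg_right h9 h10
        _ = η / 2 := one_mul _
    have h3 : ∑ q ∈ S, (1 : ℝ) / q ≤ η / 2 := by
      refine hSsum.trans ?_
      rw [div_le_iff₀ (by positivity)]
      rw [div_le_iff₀ hη] at e5
      nlinarith
    linarith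
  have hFtail : ∑ q ∈ F.filter (fun q : ℕ => V0 y < Real.log q), (1 : ℝ) / q ≤ 8 / Real.log y := by
    have hV0' : Real.exp (-(V0 y)) ≤ 1 / (Real.log y) ^ 4 := by
      rw [Real.exp_neg, ← one_div]
      exact one_div_le_one_div_of_le (by positivity) hv2
    have hbig : ∀ q : ℕ, 0 < q → V0 y < Real.log q → (1 : ℝ) / q ≤ 1 / (Real.log y) ^ 4 := by
      intro q hq0 hq
      have hq0' : (0 : ℝ) < q := by exact_mod_cast hq0
      refine le_trans ?_ hV0'
      rw [Real.exp_neg, ← one_div]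
      exact one_div_le_one_div_of_le (Real.exp_pos _) ((Real.lt_log_iff_exp_lt hq0').1 hq).le
    have h1 : ∑ q ∈ F.filter (fun q : ℕ => V0 y < Real.log q), (1 : ℝ) / q ≤
        ∑ q ∈ S, (1 : ℝ) / q + ∑ q ∈ Ps.filter (fun q : ℕ => V0 y < Real.log q), (1 : ℝ) / q := by
      have hsub : F.filter (fun q : ℕ => V0 y < Real.log q) ⊆
          S ∪ Ps.filter (fun q : ℕ => V0 y < Real.log q) := by
        intro p hp
        rw [mem_filter, hF, mem_union] at hp
        rw [mem_union, mem_filter]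
        rcases hp.1 with h | h
        · exact Or.inl h
        · exact Or.inr ⟨h, hp.2⟩
      refine (sum_le_sum_of_subset_of_nonneg hsub (fun i _ _ => hpos i)).trans ?_
      exact sum_union_le' _ hpos
    have hl4 : 1 / (Real.log y) ^ 4 ≤ 1 / Real.log y := by
      apply one_div_le_one_div_of_le hly0
      calc Real.log y = (Real.log y) ^ 1 := (pow_one _).symm
        _ ≤ (Real.log y) ^ 4 := pow_le_pow_right₀ (by linarith) (by norm_num)
    have h2 : ∑ q ∈ Ps.filter (fun q : ℕ => V0 y < Real.log q), (1 : ℝ) / q ≤ 1 / Real.log y := by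
      refine le_trans ?_ hl4
      have h3 : (Ps.filter (fun q : ℕ => V0 y < Real.log q)).card ≤ 1 :=
        (card_le_card (filter_subset _ _)).trans hPscard
      have h4 : ∑ q ∈ Ps.filter (fun q : ℕ => V0 y < Real.log q), (1 : ℝ) / q ≤
          (Ps.filter (fun q : ℕ => V0 y < Real.log q)).card • (1 / (Real.log y) ^ 4) := by
        apply sum_le_card_nsmul
        intro q hq
        rw [mem_filter] at hq
        obtain ⟨h5, h6⟩ := (hPs2 q).1 hq.1
        exact hbig q (by rw [h5]; exact h6.pos) hq.2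
      rw [nsmul_eq_mul] at h4
      have h5 : ((Ps.filter (fun q : ℕ => V0 y < Real.log q)).card : ℝ) ≤ 1 := by exact_mod_cast h3
      have h6 : 0 ≤ 1 / (Real.log y) ^ 4 := by positivity
      nlinarith
    have h4 : ∑ q ∈ S, (1 : ℝ) / q ≤ 6 / Real.log y := by
      refine hSsum.trans ?_
      apply div_le_div_of_nonneg_left (by norm_num) hly0
      nlinarith
    have h6 : 8 / Real.log y = 6 / Real.log y + 1 / Real.log y + 1 / Real.log y := by ring
    have h7 : 0 < 1 / Real.log y := by positivity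
    linarith
  obtain ⟨bb, hb1, hb2⟩ := hy₁ y hyy1 F hFp (hFsum.trans hηd.le) hFtail K hyK hKc I kk hkk hkk0 hks hI2
  rw [← hPWF] at hb1 hb2
  obtain ⟨r₀, hr₀⟩ := crt_all y bb
  set W := WW X S ps with hW
  have hWpos : 0 < W := WW_pos X S ps
  set r := r₀ + W * (2 ^ I * K) with hrdef
  have hr : ∀ p ∈ PW X S ps, (p : ℤ) ∣ (r : ℤ) + bb p := by
    intro p hp
    have h1 := hr₀ p (mem_PW.1 hp).2.1 (mem_PW.1 hp).1
    have h2 : (p : ℤ) ∣ (W : ℤ) := by
      exact_mod_cast (show p ∣ W from Finset.dvd_prod_of_mem _ hp)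
    have h3 : (r : ℤ) + bb p = ((r₀ : ℤ) + bb p) + W * ((2 ^ I * K : ℕ) : ℤ) := by
      rw [hrdef]; push_cast; ring
    rw [h3]
    exact dvd_add h1 (h2.mul_right _)
  have hiff : ∀ p ∈ PW X S ps, ∀ m : ℤ, ((p : ℤ) ∣ (r : ℤ) + m ↔ (p : ℤ) ∣ m - bb p) := by
    intro p hp m
    have h1 := hr p hp
    have h2 : (r : ℤ) + m = (m - bb p) + (r + bb p) := by ring
    rw [h2]
    exact (dvd_add_left h1)
  have hset : ∀ H : ℕ, (Icc (-(H : ℤ)) H).filter (fun m => ∀ p ∈ PW X S ps, ¬ (p : ℤ) ∣ (r : ℤ) + m) =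
      sv (PW X S ps) bb H := by
    intro H
    unfold sv
    apply filter_congr
    intro m _
    exact forall₂_congr fun p hp => not_congr (hiff p hp m)
  refine ⟨r, K, ?_, hKff, hyK, ?_, ?_, ?_, ?_⟩
  · have : (1 : ℝ) ≤ c₂ / 2 * ff X := by linarith
    linarith
  · have h1 : (1 : ℝ) ≤ K := by linarith
    exact_mod_cast h1
  · rw [hrdef]
    have : 2 ^ I * K ≤ W * (2 ^ I * K) := Nat.le_mul_of_pos_left _ hWpos
    omega
  · rw [hset]
    refine hb1.trans ?_
    have : (y : ℝ) ≤ t := by linarith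
    gcongr
  · refine le_trans (le_of_eq ?_) hb2
    apply sum_congr rfl
    intro i _
    rw [hset]

end Pool.Agent.H22.KG
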