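import Pool.Agent.H22.RC.Rich

set_option autoImplicit false
set_option maxHeartbeats 4000000

/-! # A centre with few primes around it -/

namespace Pool.Agent.H22.KG

open Finset Filter
open Pool.Agent.H378R2
open Pool.Agent.H22.RC
open Pool.Agent.H312R2.RG (LPhi_nonneg' MPhi_nonneg')
open Pool.Agent.H510R2.Maier (lphi_mphi)

open scoped Classical

/-- the weight is Lipschitz in the logarithm -/
theorem Phi_near (X a b h : ℝ) (hX : 0 < X) (ha : X / 2 ≤ a) (hb : X / 2 ≤ b) (hab : |a - b| ≤ h) :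
    Phi (a / X) ≤ Phi (b / X) + 2 * h / X := by
  have ha0 : 0 < a := by linarith
  have hb0 : 0 < b := by linarith
  have hlog : ∀ u v : ℝ, X / 2 ≤ u → X / 2 ≤ v → |u - v| ≤ h → Real.log u - Real.log v ≤ 2 * h / X := by
    intro u v hu hv huv
    have hu0 : 0 < u := by linarith
    have hv0 : 0 < v := by linarith
    rw [← Real.log_div hu0.ne' hv0.ne']
    have h1 := Real.log_le_sub_one_of_pos (show 0 < u / v by positivity)
    have h2 : u / v - 1 = (u - v) / v := by field_simp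
    have h3 : (u - v) / v ≤ h / (X / 2) := by
      have h4 : (u - v) ≤ h := (le_abs_self _).trans huv
      have h5 : 0 ≤ h := (abs_nonneg _).trans huv
      calc (u - v) / v ≤ h / v := by gcongr
        _ ≤ h / (X / 2) := by gcongr
    have h6 : h / (X / 2) = 2 * h / X := by field_simp
    linarith
  have h1 := hlog a b ha hb hab
  have h2 := hlog b a hb ha (by rw [abs_sub_comm]; exact hab)
  have h3 : |Real.log (a / X) - Real.log (b / X)| ≤ 2 * h / X := by
    rw [Real.log_div ha0.ne' hX.ne', Real.log_div hb0.ne' hX.ne', abs_le]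
    constructor <;> linarith
  have h0 : 0 ≤ 2 * h / X := (abs_nonneg _).trans h3
  unfold Phi
  set x := Real.log (a / X)
  set y := Real.log (b / X)
  apply max_le
  · have := le_max_left 0 (1 / 2 - |y - 1 / 2|)
    linarith
  · have h4 := le_max_right 0 (1 / 2 - |y - 1 / 2|)
    have h5 : |y - 1 / 2| ≤ |x - 1 / 2| + 2 * h / X := by
      have h6 : y - 1 / 2 = (x - 1 / 2) + (y - x) := by ring
      rw [h6]
      refine (abs_add_le _ _).trans ?_
      rw [abs_sub_comm y x]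
      linarith
    linarith

/-- one shift -/
theorem one_shift (X : ℝ) (hX : 40 ≤ X) (hL : 1 ≤ Real.log X) (W r H : ℕ) (m : ℤ) (hrH : H ≤ r)
    (hm1 : -(H : ℤ) ≤ m) (hm2 : m ≤ H) (hHX : (H : ℝ) ≤ X ^ (1 / 100 : ℝ))
    (V : ℤ → ℝ) (hV : ∀ a, 0 ≤ V a ∧ V a ≤ X ^ (1 / 100 : ℝ)) :
    ∑ n ∈ (Icc 1 ⌊3 * X⌋₊).filter (fun n => n ≡ r [MOD W]),
        Phi (n / X) * V (n : ℤ) * (if (((n : ℤ) + m).toNat).Prime then 1 else 0) ≤
      2 / Real.log X * ∑ n ∈ (Icc 1 ⌊3 * X⌋₊).filter (fun n => n ≡ ((r : ℤ) + m).toNat [MOD W]),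
        Phi (n / X) * ArithmeticFunction.vonMangoldt n * V ((n : ℤ) - m) +
      24 * H * X ^ (1 / 100 : ℝ) := by
  have hX0 : 0 < X := by linarith
  set L := Real.log X with hLd
  have hL0 : 0 < L := by linarith
  set x1 := X ^ (1 / 100 : ℝ) with hx1
  have hx10 : 0 < x1 := by positivity
  have hX12 : x1 ≤ X / 4 := by
    have h4 : x1 ≤ X ^ (1 / 2 : ℝ) := Real.rpow_le_rpow_of_exponent_le (by linarith) (by norm_num)
    have h5 : X ^ (1 / 2 : ℝ) * X ^ (1 / 2 : ℝ) = X := by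
      rw [← Real.rpow_add hX0]; norm_num
    have h6 : (4 : ℝ) ≤ X ^ (1 / 2 : ℝ) := by
      by_contra hcon
      push Not at hcon
      nlinarith
    nlinarith
  have hHX4 : (H : ℝ) ≤ X / 4 := hHX.trans hX12
  set I := (Icc 1 ⌊3 * X⌋₊).filter (fun n => n ≡ r [MOD W]) with hI
  set I' := (Icc 1 ⌊3 * X⌋₊).filter (fun n => n ≡ ((r : ℤ) + m).toNat [MOD W]) with hI'
  set g : ℕ → ℝ := fun q => Phi (q / X) * ArithmeticFunction.vonMangoldt q * V ((q : ℤ) - m) with hg
  have hg0 : ∀ q, 0 ≤ g q := fun q =>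
    mul_nonneg (mul_nonneg (Phi_nonneg _) ArithmeticFunction.vonMangoldt_nonneg) (hV _).1
  set I₁ : Finset ℕ := I.filter (fun n : ℕ => X < (n : ℝ) ∧ (n : ℝ) < Real.exp 1 * X ∧ (((n : ℤ) + m).toNat).Prime) with hI₁
  have hmem : ∀ n ∈ I₁, X < n ∧ (n : ℝ) < Real.exp 1 * X ∧ (((n : ℤ) + m).toNat : ℤ) = n + m ∧
      X / 2 ≤ ((((n : ℤ) + m).toNat : ℕ) : ℝ) ∧ ((((n : ℤ) + m).toNat : ℕ) : ℝ) ≤ 3 * X ∧
      |(n : ℝ) - ((((n : ℤ) + m).toNat : ℕ) : ℝ)| ≤ H ∧ (((n : ℤ) + m).toNat).Prime := by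
    intro n hn
    rw [hI₁, mem_filter] at hn
    obtain ⟨-, h1, h2, h3⟩ := hn
    have hH4 : (H : ℝ) < n := by linarith
    have hH5 : (H : ℤ) < n := by exact_mod_cast hH4
    have h4 : (((n : ℤ) + m).toNat : ℤ) = n + m := Int.toNat_of_nonneg (by omega)
    have h5 : ((((n : ℤ) + m).toNat : ℕ) : ℝ) = n + m := by exact_mod_cast h4
    have hm1' : -(H : ℝ) ≤ m := by exact_mod_cast hm1
    have hm2' : (m : ℝ) ≤ H := by exact_mod_cast hm2
    refine ⟨h1, h2, h4, ?_, ?_, ?_, h3⟩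
    · rw [h5]; linarith
    · rw [h5]
      have := Real.exp_one_lt_d9
      nlinarith
    · rw [h5, abs_le]
      constructor <;> linarith
  have hstep1 : ∑ n ∈ I, Phi (n / X) * V (n : ℤ) * (if (((n : ℤ) + m).toNat).Prime then 1 else 0) =
      ∑ n ∈ I₁, Phi (n / X) * V (n : ℤ) := by
    rw [hI₁, sum_filter (s := I)]
    apply sum_congr rfl
    intro n _
    by_cases h1 : X < n
    · by_cases h2 : (n : ℝ) < Real.exp 1 * X
      · by_cases h3 : (((n : ℤ) + m).toNat).Prime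
        · rw [if_pos h3, if_pos ⟨h1, h2, h3⟩, mul_one]
        · rw [if_neg h3, if_neg (fun h => h3 h.2.2), mul_zero]
      · have hc : ¬ (X < (n : ℝ) ∧ (n : ℝ) < Real.exp 1 * X ∧ (((n : ℤ) + m).toNat).Prime) := fun h => h2 h.2.1
        rw [Phi_eq_zero_of_ge (by rw [le_div_iff₀ hX0]; exact not_lt.1 h2), if_neg hc]
        ring
    · have hc : ¬ (X < (n : ℝ) ∧ (n : ℝ) < Real.exp 1 * X ∧ (((n : ℤ) + m).toNat).Prime) := fun h => h1 h.1
      rw [Phi_eq_zero_of_le (by positivity) (by rw [div_le_one hX0]; exact not_lt.1 h1), if_neg hc]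
      ring
  have hstep2 : ∀ n ∈ I₁, Phi (n / X) * V (n : ℤ) ≤ 2 / L * g (((n : ℤ) + m).toNat) + 8 * H * x1 / X := by
    intro n hn
    obtain ⟨h1, h2, h3, h4, h5, h6, h7⟩ := hmem n hn
    set q := ((n : ℤ) + m).toNat with hq
    have h8 := Phi_near X n q H hX0 (by linarith) h4 h6
    obtain ⟨hV0, hV1⟩ := hV (n : ℤ)
    have h9 : (q : ℤ) - m = n := by omega
    have hP0 := Phi_nonneg ((q : ℝ) / X)
    have hlq : L / 2 ≤ Real.log q := by
      have h10 : X ^ (1 / 2 : ℝ) ≤ q := by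
        have h5 : X ^ (1 / 2 : ℝ) * X ^ (1 / 2 : ℝ) = X := by
          rw [← Real.rpow_add hX0]; norm_num
        have h6 : (2 : ℝ) ≤ X ^ (1 / 2 : ℝ) := two_le_half X (by linarith)
        nlinarith
      have h11 := Real.log_le_log (by positivity) h10
      rw [Real.log_rpow hX0] at h11
      linarith
    have hΛ : ArithmeticFunction.vonMangoldt q = Real.log q := ArithmeticFunction.vonMangoldt_apply_prime h7
    have hlq3 : Real.log q ≤ 2 * L := by
      have h10 : Real.log q ≤ Real.log (3 * X) := Real.log_le_log (by exact_mod_cast h7.pos) h5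
      rw [Real.log_mul (by norm_num) hX0.ne'] at h10
      have : Real.log 3 ≤ Real.log X := Real.log_le_log (by norm_num) (by linarith)
      linarith
    have h12 : 1 ≤ 2 / L * Real.log q := by
      rw [div_mul_eq_mul_div, le_div_iff₀ hL0]; linarith
    have h13 : 2 / L * Real.log q ≤ 4 := by
      rw [div_mul_eq_mul_div, div_le_iff₀ hL0]; linarith
    have hHn : (0 : ℝ) ≤ 2 * H / X := by positivity
    simp only [hg]
    rw [h9, hΛ]
    calc Phi (n / X) * V (n : ℤ) ≤ (Phi (q / X) + 2 * H / X) * V (n : ℤ) := by gcongr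
      _ = Phi (q / X) * V (n : ℤ) + 2 * H / X * V (n : ℤ) := by ring
      _ ≤ Phi (q / X) * V (n : ℤ) * (2 / L * Real.log q) + 2 * H / X * x1 := by
          apply add_le_add
          · exact le_mul_of_one_le_right (mul_nonneg hP0 hV0) h12
          · gcongr
      _ ≤ 2 / L * (Phi (q / X) * Real.log q * V (n : ℤ)) + 8 * H * x1 / X := by
          have h14 : 2 * H / X * x1 ≤ 8 * H * x1 / X := by
            have : 0 ≤ 2 * H * x1 / X := by positivity
            have e : 8 * H * x1 / X = 4 * (2 * H * x1 / X) := by ring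
            rw [e, show 2 * (H : ℝ) / X * x1 = 2 * H * x1 / X by ring]
            linarith
          have h15 : Phi (q / X) * V (n : ℤ) * (2 / L * Real.log q) =
            2 / L * (Phi (q / X) * Real.log q * V (n : ℤ)) := by ring
          linarith
  have hinj : Set.InjOn (fun n : ℕ => ((n : ℤ) + m).toNat) I₁ := by
    intro a ha b hb hab
    have h1 := (hmem a ha).2.2.1
    have h2 := (hmem b hb).2.2.1
    simp only at hab
    rw [hab] at h1
    omega
  have hstep3 : ∑ n ∈ I₁, g (((n : ℤ) + m).toNat) ≤ ∑ q ∈ I', g q := by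
    rw [← sum_image hinj]
    apply sum_le_sum_of_subset_of_nonneg
    · intro q hq
      rw [mem_image] at hq
      obtain ⟨n, hn, rfl⟩ := hq
      obtain ⟨h1, h2, h3, h4, h5, h6, h7⟩ := hmem n hn
      rw [hI', mem_filter, mem_Icc]
      refine ⟨⟨h7.pos, Nat.le_floor h5⟩, ?_⟩
      have h8 := (mem_filter.1 (mem_filter.1 hn).1).2
      have h9 : (n : ℤ) + m ≡ (r : ℤ) + m [ZMOD W] := Int.ModEq.add_right m (Int.natCast_modEq_iff.2 h8)
      have h10 : (((r : ℤ) + m).toNat : ℤ) = r + m := Int.toNat_of_nonneg (by omega)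
      rw [← Int.natCast_modEq_iff, h3, h10]
      exact h9
    · intro q _ _
      exact hg0 q
  have hcard : (I₁.card : ℝ) ≤ 3 * X := by
    have h1 : I₁.card ≤ ⌊3 * X⌋₊ := by
      refine (card_le_card ((filter_subset _ _).trans (filter_subset _ _))).trans ?_
      rw [Nat.card_Icc, Nat.add_sub_cancel]
    exact le_trans (by exact_mod_cast h1) (Nat.floor_le (by linarith))
  rw [hstep1]
  calc ∑ n ∈ I₁, Phi (n / X) * V (n : ℤ) ≤ ∑ n ∈ I₁, (2 / L * g (((n : ℤ) + m).toNat) + 8 * H * x1 / X) :=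
        sum_le_sum hstep2
    _ = 2 / L * ∑ n ∈ I₁, g (((n : ℤ) + m).toNat) + I₁.card * (8 * H * x1 / X) := by
        rw [sum_add_distrib, ← mul_sum, sum_const, nsmul_eq_mul]
    _ ≤ 2 / L * ∑ q ∈ I', g q + (3 * X) * (8 * H * x1 / X) := by gcongr
    _ = _ := by
        have : (3 * X) * (8 * H * x1 / X) = 24 * H * x1 := by field_simp; ring
        rw [this]

theorem exists_poor : ∀ᶠ X : ℝ in atTop, ∀ (W r H : ℕ) (J : Finset ℤ) (w : ℤ → ℝ) (C : ℝ),
    0 < W → (W : ℝ) ≤ Real.exp (Real.log X / 700) → H ≤ r → (∀ m ∈ J, -(H : ℤ) ≤ m ∧ m ≤ H) → 1 ≤ H →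
    (H : ℝ) ≤ X ^ (1 / 100 : ℝ) → (∀ m, 0 ≤ w m) → 0 < C → ∑ m ∈ J, w m ≤ C →
    ∀ (V T : ℤ → ℝ) (Z₁ M M' M₂ : ℝ), (∀ a, 0 ≤ V a ∧ V a ≤ X ^ (1 / 100 : ℝ)) → (∀ a, 0 ≤ T a) →
    1 ≤ Z₁ → 3 / 4 * Z₁ ≤ M → 0 ≤ M' → M' ≤ 2 * Z₁ → 0 ≤ M₂ → M₂ ≤ Z₁ / (Real.log X) ^ 3 →
    |∑ n ∈ (Icc 1 ⌊3 * X⌋₊).filter (fun n => n ≡ r [MOD W]), Phi (n / X) * V (n : ℤ) -
      M * (MPhi X * (1 / (W : ℝ)))| ≤ Z₁ * (X / ((W : ℝ) * (Real.log X) ^ 3)) →
    |∑ n ∈ (Icc 1 ⌊3 * X⌋₊).filter (fun n => n ≡ r [MOD W]), Phi (n / X) * (V (n : ℤ) * T (n : ℤ)) -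
      M₂ * (MPhi X * (1 / (W : ℝ)))| ≤ Z₁ * (X / ((W : ℝ) * (Real.log X) ^ 3)) →
    (∀ m ∈ J, |∑ n ∈ (Icc 1 ⌊3 * X⌋₊).filter (fun n => n ≡ ((r : ℤ) + m).toNat [MOD W]),
        Phi (n / X) * ArithmeticFunction.vonMangoldt n * V ((n : ℤ) - m) -
      M' * (LPhi X * (1 / (W.totient : ℝ)))| ≤ Z₁ * (X / ((W : ℝ) * (Real.log X) ^ 3))) →
    ∀ bad : Finset ℕ, (bad.card : ℝ) ≤ X ^ (9 / 10 : ℝ) →
    ∃ n : ℕ, X < n ∧ (n : ℝ) ≤ 3 * X ∧ n ∉ bad ∧ n ≡ r [MOD W] ∧ T (n : ℤ) < 1 ∧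
      ∑ m ∈ J.filter (fun m => (((n : ℤ) + m).toNat).Prime), w m ≤
        2000 * C * ((W : ℝ) / W.totient) / Real.log X := by
  filter_upwards [ev_rich (1 / 100000) (by norm_num), lphi_mphi 1 one_pos,
    eventually_ge_atTop 40, Real.tendsto_log_atTop.eventually_ge_atTop 1000]
    with X hg hLM hX40 hL
  intro W r H J w C hW hWle hrH hJ hH1 hHX hw hC hwC V T Z₁ M M' M₂ hV hT hZ hM hM'0 hM' hM20 hM2 h1 h2 h3 bad hbad
  by_contra hcon
  push Not at hcon
  have hX0 : 0 < X := by linarith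
  set L := Real.log X with hLdef
  have hL0 : 0 < L := by linarith
  have hWr : (0 : ℝ) < W := by exact_mod_cast hW
  have hφ : (0 : ℝ) < W.totient := by exact_mod_cast Nat.totient_pos.2 hW
  have hφW : (W.totient : ℝ) ≤ W := by exact_mod_cast Nat.totient_le W
  set I := (Icc 1 ⌊3 * X⌋₊).filter (fun n => n ≡ r [MOD W]) with hI
  set x1 := X ^ (1 / 100 : ℝ) with hx1
  have hx10 : 0 < x1 := by positivity
  have hx11 : 1 ≤ x1 := Real.one_le_rpow (by linarith) (by norm_num)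
  have hH0 : (1 : ℝ) ≤ H := by exact_mod_cast hH1
  have hZ0 : 0 < Z₁ := by linarith
  set κ := 2000 * C * ((W : ℝ) / W.totient) / L with hκ
  have hκ0 : 0 < κ := by positivity
  set N : ℕ → ℝ := fun n => ∑ m ∈ J.filter (fun m => (((n : ℤ) + m).toNat).Prime), w m with hN
  have hN0 : ∀ n, 0 ≤ N n := fun n => sum_nonneg fun m _ => hw m
  -- pointwise
  have hpt : ∀ n ∈ I, Phi (n / X) * V (n : ℤ) ≤ Phi (n / X) * (V (n : ℤ) * T (n : ℤ)) +
      (if n ∈ bad then x1 else 0) + 1 / κ * (Phi (n / X) * V (n : ℤ) * N n) := by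
    intro n hn
    rw [hI, mem_filter, mem_Icc] at hn
    obtain ⟨⟨hn1, hn3⟩, hnr⟩ := hn
    have hn3' : (n : ℝ) ≤ 3 * X := (Nat.le_floor_iff (by linarith)).1 hn3
    have hP0 := Phi_nonneg ((n : ℝ) / X)
    have hP1 := Phi_le_half ((n : ℝ) / X)
    obtain ⟨hV0, hV1⟩ := hV (n : ℤ)
    have hT0 := hT (n : ℤ)
    have hNn := hN0 n
    have t1 : 0 ≤ Phi (n / X) * (V (n : ℤ) * T (n : ℤ)) := by positivity
    have t2 : (0 : ℝ) ≤ (if n ∈ bad then x1 else 0) := by split_ifs <;> positivity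
    have t3 : 0 ≤ 1 / κ * (Phi (n / X) * V (n : ℤ) * N n) := by positivity
    by_cases hXn : X < n
    · by_cases hb : n ∈ bad
      · rw [if_pos hb] at t2 ⊢
        have : Phi (n / X) * V (n : ℤ) ≤ x1 := by
          calc Phi (n / X) * V (n : ℤ) ≤ 1 * x1 := by gcongr; linarith
            _ = x1 := one_mul _
        linarith
      · by_cases hT1 : T (n : ℤ) < 1
        · have hc := hcon n hXn hn3' hb hnr hT1
          have hc' : 1 ≤ 1 / κ * N n := by
            rw [one_div, ← div_eq_inv_mul, one_le_div hκ0]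
            exact hc.le
          have h4 : Phi (n / X) * V (n : ℤ) ≤ Phi (n / X) * V (n : ℤ) * (1 / κ * N n) :=
            le_mul_of_one_le_right (by positivity) hc'
          have h5 : Phi (n / X) * V (n : ℤ) * (1 / κ * N n) = 1 / κ * (Phi (n / X) * V (n : ℤ) * N n) := by ring
          linarith
        · push Not at hT1
          have h4 : Phi (n / X) * V (n : ℤ) ≤ Phi (n / X) * (V (n : ℤ) * T (n : ℤ)) := by
            apply mul_le_mul_of_nonneg_left _ hP0
            exact le_mul_of_one_le_right hV0 hT1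
          linarith
    · have h0 : Phi (n / X) = 0 := Phi_eq_zero_of_le (by positivity) (by
        rw [div_le_one hX0]
        exact not_lt.1 hXn)
      rw [h0] at t1 t3 ⊢
      simp only [zero_mul, mul_zero] at t1 t3 ⊢
      linarith
  have hsum := Finset.sum_le_sum hpt
  rw [Finset.sum_add_distrib, Finset.sum_add_distrib, ← Finset.mul_sum] at hsum
  -- bad
  have hb1 : ∑ n ∈ I, (if n ∈ bad then x1 else 0) ≤ X ^ (91 / 100 : ℝ) := by
    rw [← sum_filter, sum_const, nsmul_eq_mul]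
    have h4 : ((I.filter (fun n => n ∈ bad)).card : ℝ) ≤ bad.card := by
      apply Nat.cast_le.2
      apply card_le_card
      intro n hn
      exact (mem_filter.1 hn).2
    calc ((I.filter (fun n => n ∈ bad)).card : ℝ) * x1 ≤ X ^ (9 / 10 : ℝ) * x1 := by
          gcongr
          exact h4.trans hbad
      _ = X ^ (91 / 100 : ℝ) := by
          rw [hx1, ← Real.rpow_add hX0]; norm_num
  -- the primes
  set P := X / (W : ℝ) with hP
  have hP0 : 0 < P := by rw [hP]; positivity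
  have hP3 : X / ((W : ℝ) * L ^ 3) = P / L ^ 3 := by rw [hP, div_div]
  rw [hP3] at h1 h2
  simp only [hP3] at h3
  have hLP0 := LPhi_nonneg' X
  have hLP : LPhi X ≤ 3 * X := by
    have h4 := (abs_le.1 hLM).2
    have h5 := MPhi_le X (by linarith)
    linarith
  have hb2 : ∑ n ∈ I, Phi (n / X) * V (n : ℤ) * N n ≤
      C * (2 / L * (6 * Z₁ * (X / W.totient) + Z₁ * (P / L ^ 3)) + 24 * H * x1) := by
    have e1 : ∑ n ∈ I, Phi (n / X) * V (n : ℤ) * N n =
        ∑ m ∈ J, w m * ∑ n ∈ I, Phi (n / X) * V (n : ℤ) * (if (((n : ℤ) + m).toNat).Prime then 1 else 0) := by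
      simp only [mul_sum]
      rw [sum_comm]
      apply sum_congr rfl
      intro n _
      simp only [hN]
      rw [sum_filter, mul_sum]
      apply sum_congr rfl
      intro m _
      split_ifs <;> ring
    rw [e1]
    have e2 : ∀ m ∈ J, w m * ∑ n ∈ I, Phi (n / X) * V (n : ℤ) * (if (((n : ℤ) + m).toNat).Prime then 1 else 0) ≤
        w m * (2 / L * (6 * Z₁ * (X / W.totient) + Z₁ * (P / L ^ 3)) + 24 * H * x1) := by
      intro m hm
      apply mul_le_mul_of_nonneg_left _ (hw m)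
      refine (one_shift X hX40 (by linarith) W r H m hrH (hJ m hm).1 (hJ m hm).2 hHX V hV).trans ?_
      have h4 := (abs_le.1 (h3 m hm)).2
      have h5 : M' * (LPhi X * (1 / (W.totient : ℝ))) ≤ 6 * Z₁ * (X / W.totient) := by
        calc M' * (LPhi X * (1 / (W.totient : ℝ))) ≤ (2 * Z₁) * ((3 * X) * (1 / (W.totient : ℝ))) := by gcongr
          _ = _ := by ring
      gcongr
      linarith
    refine (sum_le_sum e2).trans ?_
    rw [← sum_mul]
    gcongr
  -- collect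
  have hMφ : X / 20 * (1 / (W : ℝ)) ≤ MPhi X * (1 / (W : ℝ)) := by
    have := MPhi_ge X hX40
    gcongr
  have hMφ2 : MPhi X * (1 / (W : ℝ)) ≤ 2 * P := by
    have := MPhi_le X (by linarith)
    calc MPhi X * (1 / (W : ℝ)) ≤ (2 * X) * (1 / (W : ℝ)) := by gcongr
      _ = 2 * P := by rw [hP]; ring
  have hS1 := (abs_le.1 h1).1
  have hS2 := (abs_le.1 h2).2
  set S1 := ∑ n ∈ I, Phi (n / X) * V (n : ℤ) with hS1d
  set S2 := ∑ n ∈ I, Phi (n / X) * (V (n : ℤ) * T (n : ℤ)) with hS2d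
  have hL3 : (10 : ℝ) ^ 9 ≤ L ^ 3 := by
    calc (10 : ℝ) ^ 9 = 1000 ^ 3 := by norm_num
      _ ≤ L ^ 3 := by gcongr
  have hPL : P / L ^ 3 ≤ P / 1000000 := by
    apply div_le_div_of_nonneg_left hP0.le (by norm_num)
    linarith
  have hPL0 : 0 < P / L ^ 3 := by positivity
  have g1 : 3 / 80 * (Z₁ * P) - Z₁ * (P / 1000000) ≤ S1 := by
    have h4 : 3 / 4 * Z₁ * (X / 20 * (1 / (W : ℝ))) ≤ M * (MPhi X * (1 / (W : ℝ))) := by
      apply mul_le_mul hM hMφ (by positivity) (by linarith)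
    have h5 : 3 / 4 * Z₁ * (X / 20 * (1 / (W : ℝ))) = 3 / 80 * (Z₁ * P) := by rw [hP]; ring
    have h6 : Z₁ * (P / L ^ 3) ≤ Z₁ * (P / 1000000) := by gcongr
    linarith
  have g2 : S2 ≤ 3 * (Z₁ * (P / 1000000)) := by
    have h4 : M₂ * (MPhi X * (1 / (W : ℝ))) ≤ (Z₁ / L ^ 3) * (2 * P) := by
      apply mul_le_mul hM2 hMφ2 (mul_nonneg (MPhi_nonneg' X) (by positivity)) (by positivity)
    have h5 : (Z₁ / L ^ 3) * (2 * P) = 2 * (Z₁ * (P / L ^ 3)) := by ring
    have h6 : Z₁ * (P / L ^ 3) ≤ Z₁ * (P / 1000000) := by gcongr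
    linarith
  have hsmall := hg W hWr.le hWle
  have hsm2 : 100 * L * X ^ (93 / 100 : ℝ) ≤ P / 100000 := by
    rw [hP, div_div, mul_comm (W : ℝ), ← div_div, le_div_iff₀ hWr]
    calc 100 * L * X ^ (93 / 100 : ℝ) * W = W * (100 * L) * X ^ (93 / 100 : ℝ) := by ring
      _ ≤ 1 / 100000 * X := hsmall
      _ = X / 100000 := by ring
  have hx93 : 1 ≤ X ^ (93 / 100 : ℝ) := Real.one_le_rpow (by linarith) (by norm_num)
  have g3 : X ^ (91 / 100 : ℝ) ≤ Z₁ * P / 100000 := by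
    have h4 : X ^ (91 / 100 : ℝ) ≤ X ^ (93 / 100 : ℝ) :=
      Real.rpow_le_rpow_of_exponent_le (by linarith) (by norm_num)
    have h5 : X ^ (93 / 100 : ℝ) ≤ 100 * L * X ^ (93 / 100 : ℝ) := by
      apply le_mul_of_one_le_left (by positivity)
      linarith
    have h6 : P ≤ Z₁ * P := le_mul_of_one_le_left hP0.le hZ
    linarith
  have g4 : 24 * H * x1 ≤ P / 100000 := by
    have h4 : 24 * H * x1 ≤ 24 * (x1 * x1) := by
      calc 24 * H * x1 ≤ 24 * x1 * x1 := by gcongr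
        _ = _ := by ring
    have h5 : x1 * x1 ≤ X ^ (93 / 100 : ℝ) := by
      rw [hx1, ← Real.rpow_add hX0]
      exact Real.rpow_le_rpow_of_exponent_le (by linarith) (by norm_num)
    have h6 : 24 * X ^ (93 / 100 : ℝ) ≤ 100 * L * X ^ (93 / 100 : ℝ) := by
      apply mul_le_mul_of_nonneg_right _ (by positivity)
      linarith
    linarith
  have g5 : 1 / κ * (C * (2 / L * (6 * Z₁ * (X / W.totient) + Z₁ * (P / L ^ 3)) + 24 * H * x1)) ≤
      7 / 1000 * (Z₁ * P) + Z₁ * P / 1000 := by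
    have e1 : 1 / κ * C = L * (W.totient / W) / 2000 := by
      rw [hκ]
      field_simp
    have e2 : 1 / κ * (C * (2 / L * (6 * Z₁ * (X / W.totient) + Z₁ * (P / L ^ 3)) + 24 * H * x1)) =
        (L * (W.totient / W) / 2000) * (2 / L * (6 * Z₁ * (X / W.totient) + Z₁ * (P / L ^ 3)) + 24 * H * x1) := by
      rw [← e1]; ring
    rw [e2]
    have e3 : (L * (W.totient / W) / 2000) * (2 / L * (6 * Z₁ * (X / W.totient) + Z₁ * (P / L ^ 3)) + 24 * H * x1) =
        6 / 1000 * (Z₁ * P) + (W.totient / W) * (Z₁ * (P / L ^ 3)) / 1000 + (W.totient / W) * (L * (24 * H * x1)) / 2000 := by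
      rw [hP]
      field_simp
      ring
    rw [e3]
    have hr1 : (W.totient : ℝ) / W ≤ 1 := by rw [div_le_one hWr]; exact hφW
    have hr0 : 0 ≤ (W.totient : ℝ) / W := by positivity
    have h4 : (W.totient / W) * (Z₁ * (P / L ^ 3)) ≤ 1 * (Z₁ * (P / 1000000)) := by gcongr
    have h5 : L * (24 * H * x1) ≤ P / 1000 := by
      have h6 : 24 * H * x1 ≤ 24 * (x1 * x1) := by
        calc 24 * H * x1 ≤ 24 * x1 * x1 := by gcongr
          _ = _ := by ring
      have h7 : x1 * x1 ≤ X ^ (93 / 100 : ℝ) := by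
        rw [hx1, ← Real.rpow_add hX0]
        exact Real.rpow_le_rpow_of_exponent_le (by linarith) (by norm_num)
      have h8 : L * (24 * H * x1) ≤ 100 * L * X ^ (93 / 100 : ℝ) := by
        calc L * (24 * H * x1) ≤ L * (24 * X ^ (93 / 100 : ℝ)) := by
              apply mul_le_mul_of_nonneg_left _ hL0.le
              linarith
          _ ≤ _ := by
              have : 0 ≤ L * X ^ (93 / 100 : ℝ) := by positivity
              nlinarith
      linarith
    have h6 : (W.totient / W) * (L * (24 * H * x1)) ≤ 1 * (P / 1000) := by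
      have : 0 ≤ L * (24 * H * x1) := by positivity
      gcongr
    have h9 : P ≤ Z₁ * P := le_mul_of_one_le_left hP0.le hZ
    have h10 : 0 < Z₁ * P := by positivity
    have e4 : Z₁ * (P / 1000000) = Z₁ * P / 1000000 := by ring
    rw [e4] at h4
    linarith
  have g6 : 1 / κ * ∑ n ∈ I, Phi (n / X) * V (n : ℤ) * N n ≤ 7 / 1000 * (Z₁ * P) + Z₁ * P / 1000 :=
    (mul_le_mul_of_nonneg_left hb2 (by positivity)).trans g5
  have hZP : 0 < Z₁ * P := by positivity
  have e5 : Z₁ * (P / 1000000) = Z₁ * P / 1000000 := by ring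
  rw [e5] at g1 g2
  linarith

end Pool.Agent.H22.KG
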