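import Pool.Agent.H22.KG.Wts
import Pool.Agent.H22.KG.ClsX
import Pool.Agent.H22.KG.Poor
import Pool.Graph.R_seed8.H378R2.Final

set_option autoImplicit false
set_option maxHeartbeats 4000000

/-! # Record gaps with few primes around them, at all scales -/

namespace Pool.Agent.H22.KG

open Finset Filter Topology
open Pool.Agent.H378R2
open Pool.Agent.H318R2.Cr (cz_bounds V Pz mem_Pz V_pos)
open Pool.Agent.H312R2.RG (not_dvd_diff BVat ev_ff)
open Pool.Agent.H256R2.SC (ff)
open Pool.Agent.H22.RC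

open scoped Classical

/-- the number of primes at distance at most `H` from `n` -/
noncomputable def np (n H : ℕ) : ℕ :=
  ((Icc (-(H : ℤ)) H).filter (fun m => (((n : ℤ) + m).toNat).Prime)).card

theorem tot_prod (B : Finset ℕ) (hB : ∀ p ∈ B, p.Prime) :
    ((∏ p ∈ B, p).totient : ℝ) = (∏ p ∈ B, p : ℕ) * ∏ p ∈ B, (1 - 1 / (p : ℝ)) := by
  induction B using Finset.induction_on with
  | empty => simp
  | insert a s ha ih =>
    have hap := hB a (mem_insert_self _ _)
    have hs : ∀ p ∈ s, p.Prime := fun p hp => hB p (mem_insert_of_mem hp)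
    have hco : a.Coprime (∏ p ∈ s, p) := Nat.Coprime.prod_right fun q hq => by
      rw [Nat.coprime_primes hap (hs q hq)]
      rintro rfl
      exact ha hq
    rw [prod_insert ha, Nat.totient_mul hco, Nat.totient_prime hap, prod_insert ha, Nat.cast_mul, ih hs,
      Nat.cast_sub hap.one_lt.le]
    have ha0 : (0 : ℝ) < a := by exact_mod_cast hap.pos
    push_cast
    field_simp

/-- the density of the big modulus -/
theorem ratio_W : ∃ C : ℝ, 0 < C ∧ ∀ (X : ℝ) (S : Finset ℕ) (ps : ℕ), 2 ≤ yy X →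
    (WW X S ps : ℝ) / (WW X S ps).totient ≤ C * Real.log (yy X) := by
  obtain ⟨c₁, c₂, hc₁, -, hV⟩ := cz_bounds
  refine ⟨1 / c₁, by positivity, fun X S ps hy => ?_⟩
  have h1 : ((WW X S ps).totient : ℝ) = (WW X S ps) * ∏ p ∈ PW X S ps, (1 - 1 / (p : ℝ)) :=
    tot_prod (PW X S ps) (fun p hp => (mem_PW.1 hp).2.1)
  have hW0 : (0 : ℝ) < WW X S ps := by exact_mod_cast Pool.Agent.H378R2.WW_pos X S ps
  have h2 : V (yy X) ≤ ∏ p ∈ PW X S ps, (1 - 1 / (p : ℝ)) := by
    unfold V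
    have hsub : PW X S ps ⊆ Pz (yy X) := by
      intro p hp
      obtain ⟨h3, h4, -, -⟩ := mem_PW.1 hp
      exact mem_Pz.2 ⟨h4, h3⟩
    rw [← prod_sdiff hsub]
    apply mul_le_of_le_one_left
    · exact prod_nonneg fun p hp => (one_sub_pos (mem_PW.1 hp).2.1).le
    · apply prod_le_one
      · intro p hp
        exact (one_sub_pos (mem_Pz.1 (mem_sdiff.1 hp).1).1).le
      · intro p hp
        have : (0 : ℝ) ≤ 1 / (p : ℝ) := by positivity
        linarith
  have h3 := (hV (yy X) hy).1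
  have hly : 0 < Real.log (yy X) := Real.log_pos (by exact_mod_cast (by omega : 1 < yy X))
  have hV0 := V_pos (yy X)
  set Pr := ∏ p ∈ PW X S ps, (1 - 1 / (p : ℝ)) with hPr
  have hPr0 : 0 < Pr := hV0.trans_le h2
  rw [h1]
  have h4 : (WW X S ps : ℝ) / ((WW X S ps) * Pr) = 1 / Pr := by field_simp
  rw [h4, div_le_iff₀ hPr0]
  have h5 : c₁ ≤ Pr * Real.log (yy X) := h3.trans (mul_le_mul_of_nonneg_right h2 hly.le)
  calc (1 : ℝ) = 1 / c₁ * c₁ := by field_simp
    _ ≤ 1 / c₁ * (Pr * Real.log (yy X)) := by gcongr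
    _ = _ := by ring

/-- growth of the lengths -/
theorem ev_size (A : ℕ) (hA : 7 ≤ A) : ∀ᶠ X : ℝ in atTop,
    3 * (Real.exp (4 * Real.sqrt (Real.log (Real.log X))) * ff X) ≤ (Real.log X) ^ A ∧
    Real.exp (4 * Real.sqrt (Real.log (Real.log X))) * ff X ≤ X ^ (1 / 100 : ℝ) := by
  have t1 := Real.tendsto_log_atTop
  have t2 : Tendsto (fun y : ℝ => Real.log (Real.log y)) atTop atTop := t1.comp t1
  have h1 : ∀ᶠ L : ℝ in atTop, L ^ 6 ≤ Real.exp (1 / 100 * L) := by
    have := (isLittleO_pow_exp_pos_mul_atTop (k := 6) (show (0 : ℝ) < 1 / 100 by norm_num)).def one_pos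
    filter_upwards [this, eventually_gt_atTop 0] with L h2 h3
    rwa [one_mul, Real.norm_of_nonneg (by positivity), Real.norm_of_nonneg (Real.exp_pos _).le] at h2
  filter_upwards [t1.eventually h1, t1.eventually_ge_atTop 3, eventually_gt_atTop 0, ev_ff 1 one_pos,
    t2.eventually_ge_atTop 16] with X h2 h3 h4 h5 h6
  set L := Real.log X with hL
  set A' := Real.log L with hA'
  have hL0 : 0 < L := by linarith
  obtain ⟨h7, h8, -⟩ := h5
  rw [one_mul] at h7
  have h9 : Real.exp (4 * Real.sqrt A') ≤ L ^ 4 := by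
    have h10 : 4 * Real.sqrt A' ≤ 4 * A' := by
      have h11 : Real.sqrt A' ≤ A' := by
        rw [Real.sqrt_le_left (by linarith)]
        nlinarith
      linarith
    calc Real.exp (4 * Real.sqrt A') ≤ Real.exp (4 * A') := Real.exp_le_exp.2 h10
      _ = L ^ 4 := by
        rw [hA', show 4 * Real.log L = Real.log (L ^ 4) by rw [Real.log_pow]; push_cast; ring,
          Real.exp_log (by positivity)]
  have h12 : Real.exp (4 * Real.sqrt A') * ff X ≤ L ^ 6 := by
    calc Real.exp (4 * Real.sqrt A') * ff X ≤ L ^ 4 * L ^ 2 := by gcongr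
      _ = L ^ 6 := by ring
  constructor
  · calc 3 * (Real.exp (4 * Real.sqrt A') * ff X) ≤ L * L ^ 6 := by gcongr
      _ = L ^ 7 := by ring
      _ ≤ L ^ A := pow_le_pow_right₀ (by linarith) hA
  · refine (h12.trans h2).trans (le_of_eq ?_)
    rw [Real.rpow_def_of_pos h4]
    congr 1
    ring

/-- the sum of the inverses of the factors -/
theorem sum_kk (ε : ℝ) (hε : 0 < ε) : ∃ S₀ : ℝ, 0 < S₀ ∧ ∀ I : ℕ,
    ∑ i ∈ range (I + 1), 1 / (((i : ℝ) + 1) ^ (1 + ε)) ≤ S₀ := by
  have h1 : Summable (fun i : ℕ => 1 / ((i : ℝ) ^ (1 + ε))) :=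
    Real.summable_one_div_nat_rpow.2 (by linarith)
  have h2 : Summable (fun i : ℕ => 1 / (((i + 1 : ℕ) : ℝ) ^ (1 + ε))) := (summable_nat_add_iff 1).2 h1
  refine ⟨∑' i : ℕ, 1 / (((i + 1 : ℕ) : ℝ) ^ (1 + ε)) + 1, ?_, fun I => ?_⟩
  · have : 0 ≤ ∑' i : ℕ, 1 / (((i + 1 : ℕ) : ℝ) ^ (1 + ε)) := tsum_nonneg fun i => by positivity
    linarith
  · have h3 := h2.sum_le_tsum (range (I + 1)) (fun i _ => by positivity)
    push_cast at h3 ⊢
    linarith

theorem core (ε : ℝ) (hε : 0 < ε) :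
    ∃ c C : ℝ, 0 < c ∧ 0 < C ∧ ∀ᶠ X : ℝ in atTop, ∀ bad : Finset ℕ, (bad.card : ℝ) ≤ X ^ (9 / 10 : ℝ) →
      ∃ n K : ℕ, X < n ∧ (n : ℝ) ≤ 3 * X ∧ n ∉ bad ∧ c * ff X ≤ K ∧ (K : ℝ) ≤ ff X ∧ yy X ≤ K ∧ 1 ≤ K ∧
        (∀ q : ℕ, q.Prime → (K : ℝ) < |(q : ℝ) - n|) ∧
        ∀ i : ℕ, (i : ℝ) ≤ 4 * Real.sqrt (Real.log (Real.log X)) - 1 →
          (np n (2 ^ i * K) : ℝ) ≤ C * (((i : ℝ) + 1) ^ (1 + ε)) * (Real.log (yy X) / Real.log X) *
            bet (yy X) (2 ^ i * K) := by
  obtain ⟨A, c₃, hA4, hc₃, hw⟩ := weightsK 3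
  obtain ⟨S₀, hS₀, hkks⟩ := sum_kk ε hε
  obtain ⟨Z, c, Cw, hc, hCw, hcls⟩ := classesKX S₀ (c₃ / 2) hS₀ (by positivity)
  obtain ⟨CW, hCW, hratio⟩ := ratio_W
  obtain ⟨X1, hbv⟩ := bvrel_holds A Z
  refine ⟨c, 2000 * Cw * CW, hc, by positivity, ?_⟩
  have t1 := Real.tendsto_log_atTop
  have t2 : Tendsto (fun y : ℝ => Real.log (Real.log y)) atTop atTop := t1.comp t1
  filter_upwards [hw Z, hcls, exists_poor, eventually_ge_atTop X1,
    eventually_ge_atTop 40, Real.tendsto_log_atTop.eventually_ge_atTop (max 20000 (2 / c₃)),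
    ev_size A (by omega), t2.eventually_ge_atTop 100]
    with X hwX hclsX hrX hX1 hX40 hLc hsz hA100
  intro bad hbad
  obtain ⟨ps, S, hps, hS, hBV⟩ := hbv X hX1
  set I : ℕ := ⌊4 * Real.sqrt (Real.log (Real.log X))⌋₊ with hI
  have hIle : (I : ℝ) ≤ 4 * Real.sqrt (Real.log (Real.log X)) := Nat.floor_le (by positivity)
  set kk : ℕ → ℝ := fun i => ((i : ℝ) + 1) ^ (1 + ε) with hkk
  have hkk0 : ∀ i, 0 < kk i := fun i => by simp only [hkk]; positivity
  have h2I : (2 : ℝ) ^ I ≤ Real.exp (4 * Real.sqrt (Real.log (Real.log X))) := by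
    calc (2 : ℝ) ^ I ≤ (Real.exp 1) ^ I := by
          apply pow_le_pow_left₀ (by norm_num)
          have := Real.exp_one_gt_d9
          linarith
      _ = Real.exp I := by rw [← Real.exp_nat_mul, mul_one]
      _ ≤ _ := Real.exp_le_exp.2 hIle
  obtain ⟨r, K, hK1, hKff, hyK, hK2, hHr, hwin, hsumw⟩ := hclsX ps S hps hS I kk hkk0 (by simp [hkk]) (hkks I) h2I
  obtain ⟨s1, s2⟩ := hsz
  have hX0 : 0 < X := by linarith
  have hWle := WW_le X (by linarith) S ps
  have hW0 := Pool.Agent.H378R2.WW_pos X S ps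
  set L := Real.log X with hL
  have hL2 : 20000 ≤ L := (le_max_left _ _).trans hLc
  have hLc3 : 2 / c₃ ≤ L := (le_max_right _ _).trans hLc
  have hL0 : 0 < L := by linarith
  have hyy2 : 2 ≤ yy X := by
    have h1 : L / 1000 < (yy X : ℝ) + 1 := Nat.lt_floor_add_one _
    have h2 : (2 : ℝ) ≤ yy X := by
      have h3 : (19 : ℝ) < yy X := by linarith
      linarith
    exact_mod_cast h2
  set H := 2 ^ I * K with hH
  have hH1 : 1 ≤ H := Nat.mul_pos (by positivity) (by omega)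
  have hKr0 : (0 : ℝ) < K := by exact_mod_cast (by omega : 0 < K)
  have hHe : (H : ℝ) ≤ Real.exp (4 * Real.sqrt (Real.log (Real.log X))) * ff X := by
    rw [hH]
    push_cast
    gcongr
  have hHX : (H : ℝ) ≤ X ^ (1 / 100 : ℝ) := hHe.trans s2
  have h3HA : 3 * (H : ℝ) ≤ L ^ A := by linarith
  have hKH : K ≤ H := Nat.le_mul_of_pos_left _ (by positivity)
  set W := WW X S ps with hW
  have hWr : (0 : ℝ) < W := by exact_mod_cast hW0
  set y := yy X with hy
  have hy0 : (0 : ℝ) < y := by exact_mod_cast (by omega : 0 < y)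
  set U0 : Finset ℕ := (range (2 * K + 1)).filter (fun k => ∀ p ∈ PW X S ps, ¬ (p : ℤ) ∣ (r : ℤ) + ((k : ℤ) - K))
    with hU0
  set U : Finset ℕ := insert K U0 with hU
  have hUne : U.Nonempty := ⟨K, by rw [hU]; exact mem_insert_self _ _⟩
  have hU2K : ∀ k ∈ U, k ≤ 2 * K := by
    intro k hk
    rw [hU, mem_insert] at hk
    rcases hk with rfl | hk
    · omega
    · rw [hU0, mem_filter, mem_range] at hk
      omega
  have hUc : (U.card : ℝ) ≤ c₃ * L := by
    have h1 : U0.card ≤ ((Icc (-(K : ℤ)) K).filter (fun m => ∀ p ∈ PW X S ps, ¬ (p : ℤ) ∣ (r : ℤ) + m)).card := by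
      apply card_le_card_of_injOn (fun k : ℕ => (k : ℤ) - K)
      · intro k hk
        simp only [hU0, coe_filter, Set.mem_ofPred_eq, mem_range, mem_Icc] at hk ⊢
        exact ⟨by omega, hk.2⟩
      · intro a _ b _ hab
        simp only [sub_left_inj, Nat.cast_inj] at hab
        exact hab
    have h2 : U.card ≤ U0.card + 1 := by rw [hU]; exact card_insert_le _ _
    have h3 : (U.card : ℝ) ≤ (U0.card : ℝ) + 1 := by exact_mod_cast h2
    have h4 : (U0.card : ℝ) ≤ c₃ / 2 * L := le_trans (by exact_mod_cast h1) hwin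
    rw [div_le_iff₀ hc₃] at hLc3
    linarith
  obtain ⟨PP, hPP, hres⟩ := hwX ps S hps hBV {ps} U (mem_singleton_self _) (by
    rw [card_singleton]
    push_cast
    have h1 : (1 : ℝ) ≤ L ^ 3 := one_le_pow₀ (by linarith)
    have h2 : L ^ 4 = L * L ^ 3 := by ring
    rw [h2]
    nlinarith) hUne hUc
  have hKr : (K : ℝ) ≤ H := by exact_mod_cast hKH
  have hUA : ∀ k ∈ U, (k : ℝ) ≤ L ^ A := by
    intro k hk
    have h1 : (k : ℝ) ≤ 2 * K := by exact_mod_cast hU2K k hk
    linarith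
  obtain ⟨V, T, Z₁, M, M', M₂, w1, w2, w3, w4, w5, w6, w7, w7', w8, w9, w10, w11, w12⟩ := hres
    (fun _ k => (K : ℤ) - (k : ℕ)) (by
      intro p hp k l hkl hd
      have h1 : (p : ℤ) ∣ (((l : ℕ) : ℤ)) - ((k : ℕ) : ℤ) := by
        have h2 : ((K : ℤ) - ((k : ℕ) : ℤ)) - ((K : ℤ) - ((l : ℕ) : ℤ)) = ((l : ℕ) : ℤ) - ((k : ℕ) : ℤ) := by ring
        rwa [h2] at hd
      exact not_dvd_diff (hUA l l.2) (hUA k k.2) (hPP p hp).2.1 (fun h => hkl (Subtype.ext h.symm)) h1)
  have hZ0 : 0 < Z₁ := by linarith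
  -- the sets and the weight
  set J : Finset ℤ := (Icc (-(H : ℤ)) H).filter
    (fun m => (m < -(K : ℤ) ∨ (K : ℤ) < m) ∧ ∀ p ∈ PW X S ps, ¬ (p : ℤ) ∣ (r : ℤ) + m) with hJ
  set a : ℕ → ℝ := fun i => 1 / (kk i * bet y (2 ^ i * K)) with ha
  have hbpos : ∀ i, 0 < bet y (2 ^ i * K) := by
    intro i
    have hly : 50 ≤ Real.log y := by
      have h1 : L / 2000 ≤ y := by
        have h2 : L / 1000 < (yy X : ℝ) + 1 := Nat.lt_floor_add_one _
        have h3 : 1 ≤ L / 2000 := by rw [le_div_iff₀ (by norm_num)]; linarith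
        have h4 : L / 1000 = L / 2000 + L / 2000 := by ring
        linarith
      have h2 : Real.log (L / 2000) ≤ Real.log y := Real.log_le_log (by positivity) h1
      rw [Real.log_div hL0.ne' (by norm_num)] at h2
      have h3 : Real.log 2000 ≤ 8 := by
        rw [Real.log_le_iff_le_exp (by norm_num)]
        have h4 : Real.exp 8 = (Real.exp 1) ^ 8 := by rw [← Real.exp_nat_mul]; norm_num
        have h5 : (2.7 : ℝ) ^ 8 ≤ (Real.exp 1) ^ 8 := pow_le_pow_left₀ (by norm_num) (by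
          have := Real.exp_one_gt_d9; linarith) _
        rw [h4]
        norm_num at h5 ⊢
        linarith
      linarith
    have hlly : 3 ≤ Real.log (Real.log y) := by
      rw [Real.le_log_iff_exp_le (by linarith)]
      have h4 : Real.exp 3 = (Real.exp 1) ^ 3 := by rw [← Real.exp_nat_mul]; norm_num
      have h5 : (Real.exp 1) ^ 3 ≤ (2.72 : ℝ) ^ 3 := pow_le_pow_left₀ (Real.exp_pos _).le (by
        have := Real.exp_one_lt_d9; linarith) _
      rw [h4]
      norm_num at h5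
      linarith
    have hl3 : 0 < Real.log (Real.log (Real.log y)) := Real.log_pos (by linarith)
    have h1 : (1 : ℝ) ≤ ((2 ^ i * K : ℕ) : ℝ) / y := by
      rw [one_le_div hy0]
      exact_mod_cast hyK.trans (Nat.le_mul_of_pos_left _ (by positivity))
    have h2 : 0 ≤ Real.log (((2 ^ i * K : ℕ) : ℝ) / y) := Real.log_nonneg h1
    have h3 : (0 : ℝ) < ((2 ^ i * K : ℕ) : ℝ) := by
      have : 0 < 2 ^ i * K := Nat.mul_pos (by positivity) (by omega)
      exact_mod_cast this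
    unfold bet
    positivity
  have ha0 : ∀ i, 0 < a i := fun i => by
    have := hkk0 i
    have := hbpos i
    simp only [ha]
    positivity
  set w : ℤ → ℝ := fun m => ∑ i ∈ range (I + 1),
    (if m ∈ Icc (-((2 ^ i * K : ℕ) : ℤ)) ((2 ^ i * K : ℕ) : ℤ) then a i else 0) with hwd
  have hw0 : ∀ m, 0 ≤ w m := fun m => sum_nonneg fun i _ => by
    split_ifs
    · exact (ha0 i).le
    · exact le_rfl
  have hwsum : ∀ B : Finset ℤ, ∑ m ∈ B, w m =
      ∑ i ∈ range (I + 1), a i * ((B.filter (fun m => m ∈ Icc (-((2 ^ i * K : ℕ) : ℤ)) ((2 ^ i * K : ℕ) : ℤ))).card : ℝ) := by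
    intro B
    simp only [hwd]
    rw [sum_comm]
    apply sum_congr rfl
    intro i _
    rw [← sum_filter, sum_const, nsmul_eq_mul, mul_comm]
  have hJw : ∑ m ∈ J, w m ≤ Cw := by
    rw [hwsum]
    refine le_trans ?_ hsumw
    apply sum_le_sum
    intro i _
    apply mul_le_mul_of_nonneg_left _ (ha0 i).le
    apply Nat.cast_le.2
    apply card_le_card
    intro m hm
    rw [mem_filter, hJ, mem_filter] at hm
    rw [mem_filter]
    exact ⟨hm.2, hm.1.2.2⟩
  obtain ⟨n, hn1, hn2, hn3, hn4, hn5, hn6⟩ := hrX W r H J w Cw hW0 hWle hHr (by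
      intro m hm
      rw [hJ, mem_filter, mem_Icc] at hm
      exact hm.1) hH1 hHX hw0 hCw hJw V T Z₁ M M' M₂ w1 w2 w4 w5 (by
      have h1 : 0 ≤ 1 - 1 / L := by
        have : 1 / L ≤ 1 := by rw [div_le_one hL0]; linarith
        linarith
      have h2 : 0 ≤ M := by linarith
      exact (mul_nonneg h1 h2).trans w7) w7' w8 w9 (w10 r) (w11 r) (by
      intro m hm
      rw [hJ, mem_filter, mem_Icc] at hm
      obtain ⟨⟨hm1, hm2⟩, hm3, hm4⟩ := hm
      have hrm : (((r : ℤ) + m).toNat : ℤ) = r + m := Int.toNat_of_nonneg (by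
        have : (H : ℤ) ≤ r := by exact_mod_cast hHr
        omega)
      apply w12 m
      · intro p hp k hd
        have hk2 := hU2K k k.2
        -- the distance of two naturals
        have h2 : (p : ℤ) ∣ (((K : ℤ) + m + H).toNat : ℤ) - (((k : ℕ) + H : ℕ) : ℤ) := by
          have h3 : (K : ℤ) - ((k : ℕ) : ℤ) + m = (((K : ℤ) + m + H).toNat : ℤ) - (((k : ℕ) + H : ℕ) : ℤ) := by
            rw [Int.toNat_of_nonneg (by omega)]
            push_cast; ring
          rwa [h3] at hd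
        have h4 : ((((K : ℤ) + m + H).toNat : ℕ) : ℝ) ≤ L ^ A := by
          have h5 : ((((K : ℤ) + m + H).toNat : ℕ) : ℤ) ≤ 3 * (H : ℤ) := by
            rw [Int.toNat_of_nonneg (by omega)]
            have : (K : ℤ) ≤ H := by exact_mod_cast hKH
            omega
          have h6 : ((((K : ℤ) + m + H).toNat : ℕ) : ℝ) ≤ 3 * H := by exact_mod_cast h5
          linarith
        have h7 : ((((k : ℕ) + H : ℕ)) : ℝ) ≤ L ^ A := by
          have h8 : (((k : ℕ) + H : ℕ) : ℝ) ≤ 3 * H := by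
            have h9 : ((k : ℕ) : ℝ) ≤ 2 * K := by exact_mod_cast hk2
            push_cast
            linarith
          linarith
        exact not_dvd_diff h4 h7 (hPP p hp).2.1 (by omega) h2
      · unfold WW
        apply Nat.Coprime.prod_right
        intro p hp
        rw [Nat.coprime_comm, Nat.Prime.coprime_iff_not_dvd (mem_PW.1 hp).2.1]
        intro hd
        apply hm4 p hp
        rw [← hrm]
        exact_mod_cast hd) bad hbad
  -- the gap
  have hgap : ∀ q : ℕ, q.Prime → (K : ℝ) < |(q : ℝ) - n| := by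
    intro q hq
    by_contra hcon
    push Not at hcon
    set m : ℤ := (q : ℤ) - n with hm
    have hmr : |(m : ℝ)| ≤ K := by rw [hm]; push_cast; exact hcon
    obtain ⟨hm1, hm2⟩ := abs_le.1 hmr
    have hm1' : -(K : ℤ) ≤ m := by exact_mod_cast hm1
    have hm2' : m ≤ K := by exact_mod_cast hm2
    have hqbig : X / 2 ≤ q := by
      have h1 : (K : ℝ) ≤ X / 2 := by
        have h3 : X ^ (1 / 100 : ℝ) ≤ X ^ (1 / 2 : ℝ) :=
          Real.rpow_le_rpow_of_exponent_le (by linarith) (by norm_num)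
        have h5 : X ^ (1 / 2 : ℝ) * X ^ (1 / 2 : ℝ) = X := by
          rw [← Real.rpow_add hX0]; norm_num
        have h6 : (2 : ℝ) ≤ X ^ (1 / 2 : ℝ) := two_le_half X (by linarith)
        nlinarith
      have h2 := (abs_le.1 hcon).1
      linarith
    have hsmall : ∀ p : ℕ, (p : ℝ) ≤ X ^ (1 / 1000 : ℝ) → p ≠ q := by
      rintro p hp rfl
      have h5 : X ^ (1 / 2 : ℝ) * X ^ (1 / 2 : ℝ) = X := by
        rw [← Real.rpow_add hX0]; norm_num
      have h3 : X ^ (1 / 1000 : ℝ) ≤ X ^ (1 / 2 : ℝ) :=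
        Real.rpow_le_rpow_of_exponent_le (by linarith) (by norm_num)
      have h6 : (2 : ℝ) < X ^ (1 / 2 : ℝ) := two_lt_half X (by linarith)
      nlinarith
    have hyX : (y : ℝ) ≤ X ^ (1 / 1000 : ℝ) := by
      have h2 : (yy X : ℝ) ≤ L / 1000 := Nat.floor_le (by positivity)
      have h3 : X ^ (1 / 1000 : ℝ) = Real.exp (L / 1000) := by
        rw [Real.rpow_def_of_pos hX0, ← hL]
        congr 1
        ring
      rw [h3]
      have h4 := Real.add_one_le_exp (L / 1000)
      linarith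
    by_cases hk : ∀ p ∈ PW X S ps, ¬ (p : ℤ) ∣ (r : ℤ) + m
    · have hkU : (m + K).toNat ∈ U := by
        rw [hU, mem_insert]
        right
        rw [hU0, mem_filter, mem_range]
        refine ⟨by omega, fun p hp => ?_⟩
        have h1 : (((m + K).toNat : ℤ)) - K = m := by omega
        rw [h1]
        exact hk p hp
      obtain ⟨p, hp, hpd⟩ := w3 n hn5 ⟨_, hkU⟩
      have h1 : (n : ℤ) - ((K : ℤ) - (((m + K).toNat : ℕ) : ℤ)) = q := by
        rw [hm] at hm1' ⊢
        omega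
      simp only at hpd
      rw [h1] at hpd
      have h2 : p ∣ q := by exact_mod_cast hpd
      exact hsmall p (hPP p hp).2.2.1 ((Nat.prime_dvd_prime_iff_eq (hPP p hp).1 hq).1 h2)
    · push Not at hk
      obtain ⟨p, hp, hpd⟩ := hk
      have hpW : p ∣ W := (Finset.dvd_prod_of_mem _ hp)
      have h1 : (p : ℤ) ∣ (n : ℤ) - r := by
        have h2 : n ≡ r [MOD p] := hn4.of_dvd hpW
        have h3 := (Nat.modEq_iff_dvd.1 h2.symm)
        exact h3
      have h2 : (p : ℤ) ∣ q := by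
        have h3 : (q : ℤ) = ((r : ℤ) + m) + ((n : ℤ) - r) := by rw [hm]; ring
        rw [h3]
        exact dvd_add hpd h1
      have h3 : p ∣ q := by exact_mod_cast h2
      have h4 := mem_PW.1 hp
      refine hsmall p (le_trans ?_ hyX) ((Nat.prime_dvd_prime_iff_eq h4.2.1 hq).1 h3)
      exact_mod_cast h4.1
  refine ⟨n, K, hn1, hn2, hn3, hK1, hKff, hyK, hK2, hgap, fun i hi => ?_⟩
  have hiI : i ∈ range (I + 1) := by
    rw [mem_range, Nat.lt_succ_iff, hI]
    apply Nat.le_floor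
    linarith
  have hiH : 2 ^ i * K ≤ H := by
    rw [hH]
    exact Nat.mul_le_mul_right _ (Nat.pow_le_pow_right (by norm_num) (by rw [mem_range] at hiI; omega))
  have hHXr : (H : ℝ) ≤ X / 2 := by
    have h3 : X ^ (1 / 100 : ℝ) ≤ X ^ (1 / 2 : ℝ) :=
      Real.rpow_le_rpow_of_exponent_le (by linarith) (by norm_num)
    have h5 : X ^ (1 / 2 : ℝ) * X ^ (1 / 2 : ℝ) = X := by
      rw [← Real.rpow_add hX0]; norm_num
    have h6 : (2 : ℝ) ≤ X ^ (1 / 2 : ℝ) := two_le_half X (by linarith)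
    nlinarith
  set B := J.filter (fun m => (((n : ℤ) + m).toNat).Prime) with hB
  have hnp : np n (2 ^ i * K) ≤ (B.filter (fun m => m ∈ Icc (-((2 ^ i * K : ℕ) : ℤ)) ((2 ^ i * K : ℕ) : ℤ))).card := by
    unfold np
    apply card_le_card
    intro m hm
    rw [mem_filter] at hm
    obtain ⟨hm1, hm2⟩ := hm
    have hm1' := mem_Icc.1 hm1
    have hiH' : ((2 ^ i * K : ℕ) : ℤ) ≤ H := by exact_mod_cast hiH
    rw [mem_filter, hB, mem_filter, hJ, mem_filter, mem_Icc]
    have hHn : (H : ℤ) < n := by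
      have h1 : (H : ℝ) < n := by linarith
      exact_mod_cast h1
    have hq : ((((n : ℤ) + m).toNat : ℕ) : ℤ) = n + m := Int.toNat_of_nonneg (by omega)
    have hqr : ((((n : ℤ) + m).toNat : ℕ) : ℝ) = n + m := by exact_mod_cast hq
    refine ⟨⟨⟨⟨by omega, by omega⟩, ?_, ?_⟩, hm2⟩, hm1⟩
    · have h1 := hgap _ hm2
      rw [hqr, add_sub_cancel_left] at h1
      rcases lt_abs.1 h1 with h2 | h2
      · right; exact_mod_cast h2
      · left
        have h3 : (K : ℤ) < -m := by exact_mod_cast h2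
        omega
    · intro p hp hd
      have hpW : p ∣ W := (Finset.dvd_prod_of_mem _ hp)
      have h1 : (p : ℤ) ∣ (n : ℤ) - r := by
        have h2 : n ≡ r [MOD p] := hn4.of_dvd hpW
        exact (Nat.modEq_iff_dvd.1 h2.symm)
      have h2 : (p : ℤ) ∣ ((((n : ℤ) + m).toNat : ℕ) : ℤ) := by
        rw [hq]
        have h3 : (n : ℤ) + m = ((r : ℤ) + m) + ((n : ℤ) - r) := by ring
        rw [h3]
        exact dvd_add hd h1
      have h3 : p ∣ ((n : ℤ) + m).toNat := by exact_mod_cast h2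
      have h4 := mem_PW.1 hp
      have h5 := (Nat.prime_dvd_prime_iff_eq h4.2.1 hm2).1 h3
      have h6 : (((n : ℤ) + m).toNat : ℤ) ≤ yy X := by
        rw [← h5]; exact_mod_cast h4.1
      have h7 : (yy X : ℝ) ≤ L / 1000 := Nat.floor_le (by positivity)
      have h8 : L ≤ X := by
        have := Real.log_le_sub_one_of_pos hX0
        linarith
      have h9 : (n : ℝ) + m ≤ yy X := by
        have : (n : ℤ) + m ≤ yy X := by rw [← hq]; exact h6
        exact_mod_cast this
      have h10 : -(H : ℝ) ≤ m := by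
        have : -(H : ℤ) ≤ m := by omega
        exact_mod_cast this
      linarith
  have hai : a i * (np n (2 ^ i * K) : ℝ) ≤ 2000 * Cw * ((W : ℝ) / W.totient) / L := by
    refine le_trans ?_ hn6
    rw [hwsum B]
    refine le_trans ?_ (single_le_sum (f := fun i => a i *
      ((B.filter (fun m => m ∈ Icc (-((2 ^ i * K : ℕ) : ℤ)) ((2 ^ i * K : ℕ) : ℤ))).card : ℝ))
      (fun i _ => mul_nonneg (ha0 i).le (Nat.cast_nonneg _)) hiI)
    exact mul_le_mul_of_nonneg_left (by exact_mod_cast hnp) (ha0 i).le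
  have hki := hkk0 i
  have hbi := hbpos i
  have hR := hratio X S ps hyy2
  have h1 : (np n (2 ^ i * K) : ℝ) ≤ (2000 * Cw * ((W : ℝ) / W.totient) / L) * (kk i * bet y (2 ^ i * K)) := by
    have h2 : a i = 1 / (kk i * bet y (2 ^ i * K)) := rfl
    rw [h2, one_div, inv_mul_le_iff₀ (by positivity)] at hai
    linarith
  refine h1.trans ?_
  have h2 : 2000 * Cw * ((W : ℝ) / W.totient) / L ≤ 2000 * Cw * (CW * Real.log y) / L := by
    gcongr
  calc (2000 * Cw * ((W : ℝ) / W.totient) / L) * (kk i * bet y (2 ^ i * K))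
      ≤ (2000 * Cw * (CW * Real.log y) / L) * (kk i * bet y (2 ^ i * K)) := by gcongr
    _ = _ := by simp only [hkk]; ring

end Pool.Agent.H22.KG
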