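import Pool.Agent.H22.KG.Fin

set_option autoImplicit false
set_option maxHeartbeats 4000000

/-! # The nearest primes to the centre of a record gap -/

namespace Pool.Agent.H22.KG

open Finset Filter Topology
open Pool.Agent.H378R2
open Pool.Agent.H256R2.SC (ff)
open Pool.Agent.TH101.RG (V0 vfacts)
open Pool.Agent.H22.RC

open scoped Classical

/-- Rankin's size `log X log₂ X log₄ X / (log₃ X)²` -/
noncomputable def RR (X : ℝ) : ℝ :=
  Real.log X * Real.log (Real.log X) * Real.log (Real.log (Real.log (Real.log X))) /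
    (Real.log (Real.log (Real.log X))) ^ 2

/-- the distance -/
noncomputable def DD (ε X k : ℝ) : ℝ :=
  RR X * (Real.log (Real.log X) + k / ((1 + Real.log (1 + k / Real.log (Real.log X))) ^ (1 + ε) *
    (1 + Real.log k / Real.log (Real.log (Real.log X)))))

theorem near_le (n H : ℕ) (hn : H < n) (d : ℝ) (hd : d ≤ H) :
    {p : ℕ | p.Prime ∧ |(p : ℝ) - n| ≤ d}.ncard ≤ np n H := by
  unfold np
  rw [← Set.ncard_coe_finset]
  apply Set.ncard_le_ncard_of_injOn (fun p : ℕ => (p : ℤ) - n)
  · intro p hp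
    obtain ⟨h1, h2⟩ := hp
    rw [Finset.mem_coe, mem_filter, mem_Icc]
    have h3 := abs_le.1 (h2.trans hd)
    have h4 : -(H : ℤ) ≤ (p : ℤ) - n := by
      have : -(H : ℝ) ≤ (((p : ℤ) - n : ℤ) : ℝ) := by push_cast; exact h3.1
      exact_mod_cast this
    have h5 : (p : ℤ) - n ≤ H := by
      have : (((p : ℤ) - n : ℤ) : ℝ) ≤ H := by push_cast; exact h3.2
      exact_mod_cast this
    refine ⟨⟨h4, h5⟩, ?_⟩
    have h6 : ((n : ℤ) + ((p : ℤ) - n)).toNat = p := by omega
    rw [h6]
    exact h1
  · intro a _ b _ hab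
    simp only at hab
    omega

/-- the expected number of primes, in terms of `X` -/
theorem bet_le (X : ℝ) (hL0 : 0 < Real.log X) (hA : 100 ≤ Real.log (Real.log X)) (hb : 20 ≤ Real.log (Real.log (Real.log X)))
    (H : ℕ) (hH : yy X ≤ H) :
    Real.log (yy X) / Real.log X * bet (yy X) H ≤
      8 * (1 + 2 * Real.log (H / (yy X : ℝ)) / Real.log (Real.log (Real.log X))) * (H / RR X) ∧
    Real.log X / 2000 ≤ yy X := by
  set L := Real.log X with hL
  set A := Real.log L with hAd
  set b := Real.log A with hbd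
  set D := Real.log b with hD
  have hLe : L = Real.exp A := by rw [hAd, Real.exp_log hL0]
  have hL2 : 20000 ≤ L := by
    rw [hLe]
    have h1 : Real.exp 10 ≤ Real.exp A := Real.exp_le_exp.2 (by linarith)
    have h4 : Real.exp 10 = (Real.exp 1) ^ 10 := by rw [← Real.exp_nat_mul]; norm_num
    have h5 : (2.7 : ℝ) ^ 10 ≤ (Real.exp 1) ^ 10 := pow_le_pow_left₀ (by norm_num) (by
      have := Real.exp_one_gt_d9; linarith) _
    norm_num at h5
    linarith
  set y := yy X with hy
  have hy1 : L / 2000 ≤ y := by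
    have h2 : L / 1000 < (yy X : ℝ) + 1 := Nat.lt_floor_add_one _
    have h3 : 1 ≤ L / 2000 := by rw [le_div_iff₀ (by norm_num)]; linarith
    have h4 : L / 1000 = L / 2000 + L / 2000 := by ring
    linarith
  have hy2 : (y : ℝ) ≤ L / 1000 := Nat.floor_le (by positivity)
  have hy0 : (0 : ℝ) < y := by linarith
  have hly1 : Real.log y ≤ A := by
    rw [hAd]; apply Real.log_le_log hy0; linarith
  have hly2 : A / 2 ≤ Real.log y := by
    have h1 : Real.log (L / 2000) ≤ Real.log y := Real.log_le_log (by positivity) hy1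
    rw [Real.log_div hL0.ne' (by norm_num)] at h1
    have h3 : Real.log 2000 ≤ 8 := by
      rw [Real.log_le_iff_le_exp (by norm_num)]
      have h4 : Real.exp 8 = (Real.exp 1) ^ 8 := by rw [← Real.exp_nat_mul]; norm_num
      have h5 : (2.7 : ℝ) ^ 8 ≤ (Real.exp 1) ^ 8 := pow_le_pow_left₀ (by norm_num) (by
        have := Real.exp_one_gt_d9; linarith) _
      rw [h4]
      norm_num at h5 ⊢
      linarith
    linarith
  have hA0 : 0 < A := by linarith
  have hly0 : 0 < Real.log y := by linarith
  have hl2 : Real.log 2 ≤ 1 := by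
    have := Real.log_two_lt_d9; linarith
  have hl2y1 : Real.log (Real.log y) ≤ b := Real.log_le_log hly0 hly1
  have hl2y2 : b / 2 ≤ Real.log (Real.log y) := by
    have h1 : Real.log (A / 2) ≤ Real.log (Real.log y) := Real.log_le_log (by positivity) hly2
    rw [Real.log_div hA0.ne' (by norm_num)] at h1
    linarith
  have hb0 : 0 < b := by linarith
  have hD2 : 2 ≤ D := by
    rw [hD, Real.le_log_iff_exp_le hb0]
    have h4 : Real.exp 2 = (Real.exp 1) ^ 2 := by rw [← Real.exp_nat_mul]; norm_num
    have h5 : (Real.exp 1) ^ 2 ≤ (2.72 : ℝ) ^ 2 := pow_le_pow_left₀ (Real.exp_pos _).le (by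
      have := Real.exp_one_lt_d9; linarith) _
    rw [h4]
    norm_num at h5
    linarith
  have hl3y2 : D / 2 ≤ Real.log (Real.log (Real.log y)) := by
    have h1 : Real.log (b / 2) ≤ Real.log (Real.log (Real.log y)) := Real.log_le_log (by positivity) hl2y2
    rw [Real.log_div hb0.ne' (by norm_num)] at h1
    linarith
  refine ⟨?_, hy1⟩
  have hHy : (1 : ℝ) ≤ (H : ℝ) / y := by rw [one_le_div hy0]; exact_mod_cast hH
  have hlog0 : 0 ≤ Real.log ((H : ℝ) / y) := Real.log_nonneg hHy
  have hRR : RR X = L * A * D / b ^ 2 := rfl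
  have hD0 : 0 < D := by linarith
  unfold bet
  rw [hRR]
  set lh := Real.log ((H : ℝ) / y) with hlh
  have hl2y0 : 0 < Real.log (Real.log y) := by linarith
  have hl3y0 : 0 < Real.log (Real.log (Real.log y)) := by linarith
  have e1 : 1 + lh / Real.log (Real.log y) ≤ 1 + 2 * lh / b := by
    have h1 : lh / Real.log (Real.log y) ≤ lh / (b / 2) := by gcongr
    have h2 : lh / (b / 2) = 2 * lh / b := by field_simp
    linarith
  have e2 : Real.log y / L * (H * (Real.log (Real.log y)) ^ 2 /
      ((Real.log y) ^ 2 * Real.log (Real.log (Real.log y)))) ≤ 8 * (H / (L * A * D / b ^ 2)) := by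
    have h1 : Real.log y / L * (H * (Real.log (Real.log y)) ^ 2 /
      ((Real.log y) ^ 2 * Real.log (Real.log (Real.log y)))) =
      H * (Real.log (Real.log y)) ^ 2 / (L * Real.log y * Real.log (Real.log (Real.log y))) := by
      field_simp
    rw [h1]
    calc H * (Real.log (Real.log y)) ^ 2 / (L * Real.log y * Real.log (Real.log (Real.log y)))
        ≤ H * b ^ 2 / (L * (A / 2) * (D / 2)) := by gcongr
      _ = 4 * (H / (L * A * D / b ^ 2)) := by field_simp; ring
      _ ≤ 8 * (H / (L * A * D / b ^ 2)) := by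
          have : 0 ≤ (H : ℝ) / (L * A * D / b ^ 2) := by positivity
          linarith
  calc Real.log y / L * ((1 + lh / Real.log (Real.log y)) * (H * (Real.log (Real.log y)) ^ 2 /
        ((Real.log y) ^ 2 * Real.log (Real.log (Real.log y)))))
      = (1 + lh / Real.log (Real.log y)) * (Real.log y / L * (H * (Real.log (Real.log y)) ^ 2 /
        ((Real.log y) ^ 2 * Real.log (Real.log (Real.log y))))) := by ring
    _ ≤ (1 + 2 * lh / b) * (8 * (H / (L * A * D / b ^ 2))) := by
        apply mul_le_mul e1 e2 (by positivity) (by positivity)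
    _ = _ := by ring

/-- **Record gaps in sparse surroundings.** -/
theorem sparse (ε : ℝ) (hε : 0 < ε) :
    ∃ c : ℝ, 0 < c ∧ ∀ᶠ X : ℝ in atTop, ∀ bad : Finset ℕ, (bad.card : ℝ) ≤ X ^ (9 / 10 : ℝ) →
      ∃ n : ℕ, X < n ∧ (n : ℝ) ≤ 3 * X ∧ n ∉ bad ∧
        ∀ k : ℕ, 1 ≤ k → (k : ℝ) ≤ Real.exp (Real.sqrt (Real.log (Real.log X))) →
          {p : ℕ | p.Prime ∧ |(p : ℝ) - n| ≤ c * DD ε X k}.ncard < k := by
  obtain ⟨c₀, C, hc₀, hC, hcore⟩ := core ε hε
  set P2 : ℝ := 2 ^ (1 + ε) with hP2
  have hP20 : 0 < P2 := by positivity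
  set c : ℝ := min (min (c₀ / 2) (1 / 4)) (1 / (400 * C * P2)) with hc
  have hc0 : 0 < c := lt_min (lt_min (by positivity) (by norm_num)) (by positivity)
  have hc1 : c ≤ c₀ / 2 := (min_le_left _ _).trans (min_le_left _ _)
  have hc2 : c ≤ 1 / 4 := (min_le_left _ _).trans (min_le_right _ _)
  have hc3 : c * (400 * C * P2) ≤ 1 := by
    have : c ≤ 1 / (400 * C * P2) := min_le_right _ _
    rwa [le_div_iff₀ (by positivity)] at this
  refine ⟨c, hc0, ?_⟩
  have t1 := Real.tendsto_log_atTop
  have t2 : Tendsto (fun y : ℝ => Real.log (Real.log y)) atTop atTop := t1.comp t1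
  have t3 : Tendsto (fun y : ℝ => Real.log (Real.log (Real.log y))) atTop atTop := t1.comp t2
  filter_upwards [hcore, t1.eventually_ge_atTop 1, t2.eventually_ge_atTop 100, t3.eventually_ge_atTop 20,
    eventually_ge_atTop 4, ev_size 7 le_rfl] with X hX hL1 hA hb hX4 hsz
  intro bad hbad
  obtain ⟨n, K, hn1, hn2, hn3, hK1, hK2, hyK, hK3, hgap, hnp⟩ := hX bad hbad
  refine ⟨n, hn1, hn2, hn3, fun k hk1 hk2 => ?_⟩
  obtain ⟨hsz1, hsz2⟩ := hsz
  have hffd : ff X = RR X * Real.log (Real.log X) := by
    have e1 : ff X = Real.log X * (Real.log (Real.log X)) ^ 2 * Real.log (Real.log (Real.log (Real.log X))) /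
      (Real.log (Real.log (Real.log X))) ^ 2 := rfl
    rw [e1]
    unfold RR
    ring
  have hL0 : 0 < Real.log X := by linarith
  have hbet := fun H hH => bet_le X hL0 hA hb H hH
  set L := Real.log X with hL
  set A := Real.log L with hAd
  set b := Real.log A with hbd
  have hA0 : 0 < A := by linarith
  have hb0 : 0 < b := by linarith
  set D := Real.log b with hD
  have hD2 : 0 < D := Real.log_pos (by linarith)
  have hRd : RR X = L * A * D / b ^ 2 := rfl
  have hR0 : 0 < RR X := by rw [hRd]; positivity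
  have hkr : (1 : ℝ) ≤ k := by exact_mod_cast hk1
  have hk0 : (0 : ℝ) < k := by linarith
  set lam := Real.log (1 + k / A) with hlam
  have hlam0 : 0 ≤ lam := Real.log_nonneg (by
    have : 0 < (k : ℝ) / A := by positivity
    linarith)
  set E1 := (1 + lam) ^ (1 + ε) with hE1
  have hE11 : 1 ≤ E1 := Real.one_le_rpow (by linarith) (by linarith)
  have hlk0 : 0 ≤ Real.log k := Real.log_nonneg hkr
  set E2 := 1 + Real.log k / b with hE2
  have hE21 : 1 ≤ E2 := by
    have : 0 ≤ Real.log k / b := by positivity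
    linarith
  have hDD : DD ε X k = RR X * (A + k / (E1 * E2)) := rfl
  have hKr0 : (0 : ℝ) < K := by exact_mod_cast (by omega : 0 < K)
  have hDD0 : 0 < c * DD ε X k := by rw [hDD]; positivity
  by_cases hcase : c * DD ε X k ≤ K
  · have hempty : {p : ℕ | p.Prime ∧ |(p : ℝ) - n| ≤ c * DD ε X k} = ∅ := by
      ext p
      simp only [Set.mem_ofPred_eq, Set.mem_empty_iff_false, iff_false, not_and, not_le]
      intro hp
      exact hcase.trans_lt (hgap p hp)
    rw [hempty, Set.ncard_empty]
    omega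
  push Not at hcase
  -- the scale
  have hex : ∃ i : ℕ, c * DD ε X k ≤ 2 ^ i * K := by
    obtain ⟨i, hi⟩ := pow_unbounded_of_one_lt (c * DD ε X k) (show (1 : ℝ) < 2 by norm_num)
    refine ⟨i, hi.le.trans ?_⟩
    apply le_mul_of_one_le_right (by positivity)
    exact_mod_cast hK3
  set i := Nat.find hex with hi
  have hi1 : c * DD ε X k ≤ 2 ^ i * K := Nat.find_spec hex
  have hi0 : i ≠ 0 := by
    intro h0
    rw [h0, pow_zero, one_mul] at hi1
    linarith
  have hi2 : (2 : ℝ) ^ (i - 1) * K < c * DD ε X k := by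
    have h1 := Nat.find_min hex (show i - 1 < i by omega)
    push Not at h1
    exact h1
  -- the distance is small
  have hcA : c * (RR X * A) ≤ K / 2 := by
    rw [hffd] at hK1
    have : c * (RR X * A) ≤ c₀ / 2 * (RR X * A) := mul_le_mul_of_nonneg_right hc1 (by positivity)
    linarith
  have hDle : c * DD ε X k ≤ 2 * (c * RR X * k / (E1 * E2)) := by
    have h1 : c * DD ε X k = c * (RR X * A) + c * RR X * k / (E1 * E2) := by rw [hDD]; ring
    linarith
  have hEE : 1 ≤ E1 * E2 := by nlinarith
  have hDle2 : c * DD ε X k ≤ 2 * (c * RR X * k) := by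
    refine hDle.trans ?_
    have : c * RR X * k / (E1 * E2) ≤ c * RR X * k := div_le_self (by positivity) hEE
    linarith
  -- the exponent
  have hpow : (2 : ℝ) ^ (i - 1) < k / A := by
    have h1 : (2 : ℝ) ^ (i - 1) * K < 2 * (c * RR X * k) := hi2.trans_le hDle2
    rw [lt_div_iff₀ hA0]
    have h2 : 2 * (c * RR X) * A ≤ K := by linarith
    have h3 : (2 : ℝ) ^ (i - 1) * A * K < k * K := by
      calc (2 : ℝ) ^ (i - 1) * A * K = ((2 : ℝ) ^ (i - 1) * K) * A := by ring
        _ < (2 * (c * RR X * k)) * A := by gcongr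
        _ = (2 * (c * RR X) * A) * k := by ring
        _ ≤ K * k := by gcongr
        _ = k * K := by ring
    exact lt_of_mul_lt_mul_right h3 hKr0.le
  have hlog2 : (0.69 : ℝ) < Real.log 2 := by
    have := Real.log_two_gt_d9; linarith
  have hi3 : ((i : ℝ) - 1) * Real.log 2 ≤ lam := by
    have h1 : Real.log ((2 : ℝ) ^ (i - 1)) ≤ lam := by
      apply Real.log_le_log (by positivity)
      linarith
    rw [Real.log_pow] at h1
    have h2 : ((i - 1 : ℕ) : ℝ) = (i : ℝ) - 1 := by
      rw [Nat.cast_sub (by omega)]; simp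
    rwa [h2] at h1
  have hi4 : (i : ℝ) + 1 ≤ 2 * (1 + lam) := by
    nlinarith
  have hlamk : lam ≤ Real.log 2 + Real.log k := by
    rw [← Real.log_mul (by norm_num) hk0.ne']
    apply Real.log_le_log (by positivity)
    have : (k : ℝ) / A ≤ k := div_le_self hk0.le (by linarith)
    linarith
  have hlogk : Real.log k ≤ Real.sqrt A := by
    rw [Real.log_le_iff_le_exp hk0]; exact hk2
  have hsA : 10 ≤ Real.sqrt A := by
    rw [Real.le_sqrt (by norm_num) hA0.le]; linarith
  have hi5 : (i : ℝ) ≤ 4 * Real.sqrt A - 1 := by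
    have h1 : Real.log 2 ≤ 1 := by have := Real.log_two_lt_d9; linarith
    linarith
  have hnp1 := hnp i hi5
  -- the size of the window
  set H := 2 ^ i * K with hH
  have hHr : (H : ℝ) = 2 * (2 ^ (i - 1) * K) := by
    rw [hH]
    push_cast
    have : (2 : ℝ) ^ i = 2 * 2 ^ (i - 1) := by
      rw [← pow_succ']
      congr 1
      omega
    rw [this]; ring
  have hHle : (H : ℝ) ≤ 4 * (c * RR X * k / (E1 * E2)) := by rw [hHr]; linarith
  have hyH : yy X ≤ H := hyK.trans (Nat.le_mul_of_pos_left _ (by positivity))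
  obtain ⟨hb1, hb2⟩ := hbet H hyH
  have hy0 : (0 : ℝ) < yy X := by
    have : 0 < L / 2000 := by positivity
    linarith
  have hlogH : 2 * Real.log (H / (yy X : ℝ)) / b ≤ 2 * (Real.log k / b) + 3 := by
    have h1 : (H : ℝ) / yy X ≤ 2000 * (k * A) := by
      rw [div_le_iff₀ hy0]
      have h2 : (H : ℝ) ≤ RR X * k := by
        rw [hHr]
        have h3 : 2 * (2 * (c * RR X * k)) ≤ RR X * k := by
          have : 0 < RR X * k := by positivity
          nlinarith
        linarith
      have h4 : RR X ≤ L * A := by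
        rw [hRd, div_le_iff₀ (by positivity)]
        have h5 : D ≤ b ^ 2 := by
          have := Real.log_le_sub_one_of_pos hb0
          nlinarith
        have : 0 < L * A := by positivity
        nlinarith
      calc (H : ℝ) ≤ RR X * k := h2
        _ ≤ L * A * k := by gcongr
        _ = 2000 * (k * A) * (L / 2000) := by ring
        _ ≤ 2000 * (k * A) * yy X := by gcongr
    have hHy0 : (0 : ℝ) < (H : ℝ) / yy X := by
      have : (0 : ℝ) < H := by
        have h7 : 0 < H := Nat.mul_pos (by positivity) (by omega)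
        exact_mod_cast h7
      positivity
    have h2 := Real.log_le_log hHy0 h1
    rw [Real.log_mul (by norm_num) (by positivity), Real.log_mul hk0.ne' hA0.ne', ← hbd] at h2
    have h3 : Real.log 2000 ≤ 8 := by
      rw [Real.log_le_iff_le_exp (by norm_num)]
      have h4 : Real.exp 8 = (Real.exp 1) ^ 8 := by rw [← Real.exp_nat_mul]; norm_num
      have h5 : (2.7 : ℝ) ^ 8 ≤ (Real.exp 1) ^ 8 := pow_le_pow_left₀ (by norm_num) (by
        have := Real.exp_one_gt_d9; linarith) _
      rw [h4]
      norm_num at h5 ⊢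
      linarith
    have h6 : 2 * (Real.log k / b) + 3 = (2 * Real.log k + 3 * b) / b := by field_simp
    rw [h6]
    gcongr
    linarith
  have hfac : 1 + 2 * Real.log (H / (yy X : ℝ)) / b ≤ 4 * E2 := by
    have : 0 ≤ Real.log k / b := by positivity
    rw [hE2]; linarith
  have hpw : ((i : ℝ) + 1) ^ (1 + ε) ≤ P2 * E1 := by
    rw [hP2, hE1, ← Real.mul_rpow (by norm_num) (by linarith)]
    exact Real.rpow_le_rpow (by positivity) hi4 (by linarith)
  have hfinal : (np n H : ℝ) < k := by
    have hHR : 0 ≤ (H : ℝ) / RR X := by positivity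
    have e1 : Real.log (yy X) / L * bet (yy X) H ≤ 8 * (4 * E2) * (H / RR X) := by
      refine hb1.trans ?_
      gcongr
    have e2 : (H : ℝ) / RR X ≤ 4 * (c * k / (E1 * E2)) := by
      rw [div_le_iff₀ hR0]
      refine hHle.trans (le_of_eq ?_)
      ring
    have e3 : 0 ≤ C * ((i : ℝ) + 1) ^ (1 + ε) := by positivity
    have hE10 : 0 < E1 := by linarith
    have hE20 : 0 < E2 := by linarith
    calc (np n H : ℝ) ≤ C * (((i : ℝ) + 1) ^ (1 + ε)) * (Real.log (yy X) / L) * bet (yy X) H := hnp1
      _ = (C * (((i : ℝ) + 1) ^ (1 + ε))) * (Real.log (yy X) / L * bet (yy X) H) := by ring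
      _ ≤ (C * (P2 * E1)) * (8 * (4 * E2) * (4 * (c * k / (E1 * E2)))) := by
          apply mul_le_mul
          · gcongr
          · refine e1.trans ?_
            gcongr
          · by_contra hneg
            push Not at hneg
            have h1 : (np n H : ℝ) ≤ (C * (((i : ℝ) + 1) ^ (1 + ε))) * (Real.log (yy X) / L * bet (yy X) H) :=
              hnp1.trans (le_of_eq (by ring))
            have h2 : (0 : ℝ) < C * (((i : ℝ) + 1) ^ (1 + ε)) := by positivity
            have h3 := mul_neg_of_pos_of_neg h2 hneg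
            have h4 : (0 : ℝ) ≤ np n H := Nat.cast_nonneg _
            linarith
          · positivity
      _ = (128 * C * P2 * c) * k := by field_simp; ring
      _ < 1 * k := by
          apply mul_lt_mul_of_pos_right _ hk0
          have : 0 < C * P2 * c := by positivity
          linarith
      _ = k := one_mul _
  have hHn : H < n := by
    have h1 : (H : ℝ) ≤ X ^ (1 / 100 : ℝ) := by
      refine le_trans ?_ hsz2
      rw [hH]
      push_cast
      apply mul_le_mul _ hK2 (by positivity) (Real.exp_pos _).le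
      calc (2 : ℝ) ^ i ≤ (Real.exp 1) ^ i := by
            apply pow_le_pow_left₀ (by norm_num)
            have := Real.exp_one_gt_d9
            linarith
        _ = Real.exp i := by rw [← Real.exp_nat_mul, mul_one]
        _ ≤ _ := Real.exp_le_exp.2 (by linarith)
    have h2 : X ^ (1 / 100 : ℝ) ≤ X ^ (1 : ℝ) :=
      Real.rpow_le_rpow_of_exponent_le (by linarith) (by norm_num)
    rw [Real.rpow_one] at h2
    have h3 : (H : ℝ) < n := by linarith
    exact_mod_cast h3
  have hnear := near_le n H hHn (c * DD ε X k) (by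
    rw [hH]; push_cast; exact hi1)
  have hfinal' : np n H < k := by exact_mod_cast hfinal
  exact lt_of_le_of_lt hnear hfinal'

end Pool.Agent.H22.KG
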