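import Pool.Graph.R_seed8.H312R2.RG.VW1

set_option autoImplicit false
set_option maxHeartbeats 4000000

/-! # The mass of the repelling weights for changed densities -/

open Finset

namespace Pool.Agent.H22.KG

open Pool.Agent.H256R2.SC Pool.Agent.H312R2.RG

variable {n : ℕ} {κ : Type} [Fintype κ] [DecidableEq κ]

/-- local weights -/
noncomputable def be (u g : ℝ) (a : Option κ) : ℝ :=
  match a with
  | none => 1 + 8 * u * g ^ 2
  | some _ => g * (1 + 7 * g)

/-- local ratio -/
noncomputable def ra (g : ℝ) (c : Option κ) : ℝ := if c = none then 1 else 1 + 2 * g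

theorem local_ratio (g : ℝ) (hg : 0 ≤ g) (hug : 4 * (Fintype.card κ : ℝ) * g ≤ 1) (Y : Option κ → ℝ) :
    ∑ c, wt g c * ra g c * (∑ a, psi1 g a c * Y a) ^ 2 ≤ ∑ a, be (Fintype.card κ : ℝ) g a * (Y a) ^ 2 := by
  have h0 := local_upper g hg Y
  have e1 : ∀ l : κ, ∑ a, psi1 g a (some l) * Y a = Y none + Y (some l) - g * ∑ k, Y (some k) := by
    intro l
    rw [Fintype.sum_option]
    have : ∀ k : κ, psi1 g (some k) (some l) * Y (some k) = (if l = k then Y (some k) else 0) - g * Y (some k) := by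
      intro k
      unfold psi1
      by_cases h : l = k
      · subst h; simp; ring
      · have h' : ¬ (some l = some k) := fun hh => h (Option.some.inj hh)
        simp [h]
    rw [sum_congr rfl (fun k _ => this k), sum_sub_distrib, sum_ite_eq, ← mul_sum]
    simp [psi1]
    ring
  generalize hF : (fun c : Option κ => ∑ a, psi1 g a c * Y a) = F
  have hF' : ∀ c, ∑ a, psi1 g a c * Y a = F c := fun c => by rw [← hF]
  simp only [hF'] at h0 e1 ⊢
  rw [Fintype.sum_option (f := fun c => wt g c * ra g c * (F c) ^ 2),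
    Fintype.sum_option (f := fun a => be (Fintype.card κ : ℝ) g a * (Y a) ^ 2)]
  rw [Fintype.sum_option (f := fun c => wt g c * (F c) ^ 2),
    Fintype.sum_option (f := fun a => nu1 g a * (Y a) ^ 2)] at h0
  set u : ℝ := (Fintype.card κ : ℝ) with hu
  have hu0 : 0 ≤ u := Nat.cast_nonneg _
  set S := ∑ k : κ, Y (some k) with hS
  set q := ∑ k : κ, (Y (some k)) ^ 2 with hq
  have hSq : S ^ 2 ≤ u * q := by
    have := sq_sum_le_card_mul_sum_sq (s := (univ : Finset κ)) (f := fun k => Y (some k))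
    rw [card_univ] at this
    exact this
  have hq0 : 0 ≤ q := sum_nonneg fun _ _ => sq_nonneg _
  have e2 : ∑ l : κ, wt g (some l) * ra g (some l) * (F (some l)) ^ 2 =
      ∑ l : κ, wt g (some l) * (F (some l)) ^ 2 +
        2 * g ^ 2 * ∑ l : κ, (Y none + Y (some l) - g * S) ^ 2 := by
    rw [mul_sum, ← sum_add_distrib]
    apply sum_congr rfl
    intro l _
    rw [e1 l]
    simp only [wt, ra]
    rw [if_neg (by simp)]
    ring
  have e3 : ∑ l : κ, (Y none + Y (some l) - g * S) ^ 2 ≤ 3 * u * (Y none) ^ 2 + 3 * q + 3 * u * (g ^ 2 * S ^ 2) := by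
    calc ∑ l : κ, (Y none + Y (some l) - g * S) ^ 2
        ≤ ∑ l : κ, (3 * (Y none) ^ 2 + 3 * (Y (some l)) ^ 2 + 3 * (g ^ 2 * S ^ 2)) := by
          apply sum_le_sum
          intro l _
          nlinarith [sq_nonneg (Y none - Y (some l)), sq_nonneg (Y none + g * S), sq_nonneg (Y (some l) + g * S)]
      _ = _ := by
          rw [sum_add_distrib, sum_add_distrib, sum_const, sum_const, card_univ, ← mul_sum, nsmul_eq_mul,
            nsmul_eq_mul]
          ring
  have e4 : wt g (none : Option κ) * ra g (none : Option κ) = wt g (none : Option κ) := by simp [ra]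
  rw [e2, e4]
  have e5 : ∑ k : κ, nu1 g (some k) * (Y (some k)) ^ 2 = g * q := by
    simp only [nu1]; rw [← mul_sum]
  have e6 : ∑ k : κ, be u g (some k) * (Y (some k)) ^ 2 = g * (1 + 7 * g) * q := by
    simp only [be]; rw [← mul_sum]
  have e7 : nu1 g (none : Option κ) * (Y none) ^ 2 = (Y none) ^ 2 := by simp [nu1]
  have e8 : be u g (none : Option κ) * (Y none) ^ 2 = (1 + 8 * u * g ^ 2) * (Y none) ^ 2 := rfl
  rw [e5, e7] at h0
  rw [e6, e8]
  have h1 : u * g ≤ 1 / 4 := by linarith
  have h2 : 2 * g ^ 2 * ∑ l : κ, (Y none + Y (some l) - g * S) ^ 2 ≤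
      8 * u * g ^ 2 * (Y none) ^ 2 + 7 * g ^ 2 * q := by
    have h3 : 2 * g ^ 2 * ∑ l : κ, (Y none + Y (some l) - g * S) ^ 2 ≤
      2 * g ^ 2 * (3 * u * (Y none) ^ 2 + 3 * q + 3 * u * (g ^ 2 * S ^ 2)) :=
      mul_le_mul_of_nonneg_left e3 (by positivity)
    have h4 : 3 * u * (g ^ 2 * S ^ 2) ≤ 1 / 2 * q := by
      have h5 : 3 * u * (g ^ 2 * S ^ 2) ≤ 3 * u * (g ^ 2 * (u * q)) := by gcongr
      have h6 : 3 * u * (g ^ 2 * (u * q)) = 3 * (u * g) ^ 2 * q := by ring
      have h7 : 3 * (u * g) ^ 2 ≤ 1 / 2 := by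
        have : 0 ≤ u * g := mul_nonneg hu0 hg
        nlinarith
      have h8 : 3 * (u * g) ^ 2 * q ≤ 1 / 2 * q := mul_le_mul_of_nonneg_right h7 hq0
      linarith
    have h9 : 0 ≤ u * g ^ 2 * (Y none) ^ 2 := by positivity
    have h10 : 2 * g ^ 2 * (3 * u * (Y none) ^ 2 + 3 * q + 3 * u * (g ^ 2 * S ^ 2)) ≤
        2 * g ^ 2 * (3 * u * (Y none) ^ 2 + 3 * q + 1 / 2 * q) := by gcongr
    have h11 : 2 * g ^ 2 * (3 * u * (Y none) ^ 2 + 3 * q + 1 / 2 * q) =
        6 * (u * g ^ 2 * (Y none) ^ 2) + 7 * g ^ 2 * q := by ring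
    linarith
  have h12 : g * (1 + 7 * g) * q = g * q + 7 * g ^ 2 * q := by ring
  have h13 : (1 + 8 * u * g ^ 2) * (Y none) ^ 2 = (Y none) ^ 2 + 8 * u * g ^ 2 * (Y none) ^ 2 := by ring
  rw [h12, h13]
  linarith

theorem EEQ_sharp {p g : Fin n → ℝ} {h : Finset (Fin n) → ℝ} {z K : ℝ} (H : Hyp p g h z K)
    (g' : Fin n → ℝ) (h1 : ∀ i, g i ≤ g' i) (h2 : ∀ i, g' i ≤ g i * (1 + 2 * g i))
    (hug' : ∀ i, (Fintype.card κ : ℝ) * g' i ≤ 1)
    (Q δ : ℝ) (hug : ∀ i, 4 * (Fintype.card κ : ℝ) * g i ≤ 1)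
    (hδD : ∀ D : Col n κ, qq p D ≤ Q → 2 * ∑ i with D i ≠ none, g i ≤ δ) :
    EE g' (fun x : Col n κ => V2 p g h Q x) ≤
      Real.exp (8 * (Fintype.card κ : ℝ) * ∑ i, (g i) ^ 2 + 4 * δ) * Zs κ g h := by
  have hg : ∀ i, 0 ≤ g i := fun i => (H.g0 i).le
  have hu0 : (0 : ℝ) ≤ (Fintype.card κ : ℝ) := Nat.cast_nonneg _
  have hw : ∀ i (c : Option κ), 0 ≤ wt (g i) c := fun i c =>
    wt_nonneg (hg i) (by
      have := hug i
      have h2 : 0 ≤ (Fintype.card κ : ℝ) * g i := mul_nonneg (Nat.cast_nonneg _) (hg i)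
      nlinarith) c
  have hra : ∀ i (c : Option κ), 0 ≤ ra (g i) c := by
    intro i c
    unfold ra
    have := hg i
    split_ifs <;> linarith
  have hbe : ∀ i (a : Option κ), 0 ≤ be (Fintype.card κ : ℝ) (g i) a := by
    intro i a
    have := hg i
    cases a with
    | none => simp only [be]; positivity
    | some k => simp only [be]; positivity
  refine (ratio_upper g g' hg h1 h2 hug' _ (fun x => V2_nonneg _ _ _ _ _)).trans ?_
  have h3 := tensor_upper g (fun i => ra (g i)) (fun i => be (Fintype.card κ : ℝ) (g i)) hw hra hbe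
    (fun i Y => local_ratio (g i) (hg i) (hug i) Y) (yT p h Q : Col n κ → ℝ)
  have h4 : (fun x : Col n κ => (∏ i, (if x i = none then 1 else 1 + 2 * g i)) * V2 p g h Q x) =
      fun x => (∏ i, ra (g i) (x i)) * (VV g (yT p h Q) x) ^ 2 := by
    funext x
    rfl
  rw [h4]
  refine h3.trans ?_
  unfold Zs
  rw [mul_sum]
  apply sum_le_sum
  intro D _
  by_cases hD : qq p D ≤ Q
  · have h5 : yT p h Q D = Pool.Agent.H256R2.SC.yy h D := by unfold yT; rw [if_pos hD]
    rw [h5]
    have h6 : ∏ i, be (Fintype.card κ : ℝ) (g i) (D i) ≤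
        Real.exp (8 * (Fintype.card κ : ℝ) * ∑ i, (g i) ^ 2 + 4 * δ) * nu g D := by
      have h7 : ∀ i, be (Fintype.card κ : ℝ) (g i) (D i) ≤
          Real.exp (8 * (Fintype.card κ : ℝ) * (g i) ^ 2 + (if D i ≠ none then 7 * g i else 0)) * nu1 (g i) (D i) := by
        intro i
        have hgi := hg i
        cases hDi : D i with
        | none =>
          simp only [be, nu1, ne_eq, not_true_eq_false, if_false, add_zero, mul_one]
          have := Real.add_one_le_exp (8 * (Fintype.card κ : ℝ) * (g i) ^ 2)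
          linarith
        | some k =>
          simp only [be, nu1]
          rw [if_pos (by simp), mul_comm (g i)]
          apply mul_le_mul_of_nonneg_right _ hgi
          have h8 := Real.add_one_le_exp (7 * g i)
          have h9 : Real.exp (7 * g i) ≤ Real.exp (8 * (Fintype.card κ : ℝ) * (g i) ^ 2 + 7 * g i) := by
            apply Real.exp_le_exp.2
            have : 0 ≤ 8 * (Fintype.card κ : ℝ) * (g i) ^ 2 := by positivity
            linarith
          linarith
      calc ∏ i, be (Fintype.card κ : ℝ) (g i) (D i) ≤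
          ∏ i, (Real.exp (8 * (Fintype.card κ : ℝ) * (g i) ^ 2 + (if D i ≠ none then 7 * g i else 0)) *
            nu1 (g i) (D i)) := prod_le_prod (fun i _ => hbe i _) (fun i _ => h7 i)
        _ = Real.exp (∑ i, (8 * (Fintype.card κ : ℝ) * (g i) ^ 2 + (if D i ≠ none then 7 * g i else 0))) *
            nu g D := by
          rw [prod_mul_distrib, ← Real.exp_sum]
          rfl
        _ ≤ _ := by
          have h10 : 0 ≤ nu g D := by
            unfold nu
            apply prod_nonneg
            intro i _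
            cases D i with
            | none => exact zero_le_one
            | some k => exact hg i
          apply mul_le_mul_of_nonneg_right _ h10
          apply Real.exp_le_exp.2
          rw [sum_add_distrib, ← mul_sum]
          have h11 : ∑ i, (if D i ≠ none then 7 * g i else 0) ≤ 4 * δ := by
            rw [← sum_filter, ← mul_sum]
            have h12 := hδD D hD
            have h13 : 0 ≤ ∑ i with D i ≠ none, g i := sum_nonneg fun i _ => hg i
            linarith
          linarith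
    calc (∏ i, be (Fintype.card κ : ℝ) (g i) (D i)) * (Pool.Agent.H256R2.SC.yy h D) ^ 2
        ≤ (Real.exp (8 * (Fintype.card κ : ℝ) * ∑ i, (g i) ^ 2 + 4 * δ) * nu g D) *
          (Pool.Agent.H256R2.SC.yy h D) ^ 2 := mul_le_mul_of_nonneg_right h6 (sq_nonneg _)
      _ = _ := by ring
  · have h5 : yT p h Q D = 0 := by unfold yT; rw [if_neg hD]
    rw [h5]
    have h10 : 0 ≤ nu g D := by
      unfold nu
      apply prod_nonneg
      intro i _
      cases D i with
      | none => exact zero_le_one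
      | some k => exact hg i
    have h11 := Real.exp_pos (8 * (Fintype.card κ : ℝ) * ∑ i, (g i) ^ 2 + 4 * δ)
    rw [zero_pow (by norm_num), mul_zero]
    positivity

end Pool.Agent.H22.KG
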