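import Pool.Graph.R_seed8.TH101.RG.Surv
import Pool.Agent.H22.RC.Win

set_option autoImplicit false
set_option maxHeartbeats 4000000

/-! # The window around the centre -/

namespace Pool.Agent.H22.KG

open Finset Pool.Agent.H318R2.Cr Pool.Agent.H398R2.RK Pool.Agent.TH101.RG Pool.Agent.H22.RC

open scoped Classical

/-- the harmonic sum over the numbers composed of the primes of `F` -/
theorem harm_D (F : Finset ℕ) (hF : ∀ q ∈ F, q.Prime)
    (M : Finset ℕ) (hM : ∀ m ∈ M, m ≠ 0 ∧ ∀ p : ℕ, p.Prime → p ∣ m → p ∈ F) :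
    ∑ m ∈ M, (1 : ℝ) / m ≤ ∏ p ∈ F, (1 - 1 / (p : ℝ))⁻¹ := by
  have hlt : ∀ {p : ℕ}, p.Prime → ‖invHom p‖ < 1 := by
    intro p hp
    have hp2 : (2 : ℝ) ≤ p := by exact_mod_cast hp.two_le
    show ‖((p : ℝ))⁻¹‖ < 1
    rw [norm_inv, Real.norm_natCast]
    rw [inv_lt_one₀ (by linarith)]
    linarith
  obtain ⟨h1, h2⟩ := EulerProduct.summable_and_hasSum_factoredNumbers_prod_filter_prime_geometric hlt F
  have h3 : ∏ p ∈ F with p.Prime, (1 - invHom p)⁻¹ = ∏ p ∈ F, (1 - 1 / (p : ℝ))⁻¹ := by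
    rw [Finset.filter_true_of_mem hF]
    apply Finset.prod_congr rfl
    intro p _
    show (1 - ((p : ℝ))⁻¹)⁻¹ = _
    rw [one_div]
  rw [h3] at h2
  have h4 : ∀ m ∈ M, m ∈ Nat.factoredNumbers F := by
    intro m hm
    obtain ⟨h5, h6⟩ := hM m hm
    rw [Nat.mem_factoredNumbers_iff_primeFactors_subset]
    refine ⟨h5, fun p hp => h6 p (Nat.prime_of_mem_primeFactors hp) (Nat.dvd_of_mem_primeFactors hp)⟩
  have h5 : ∑ m ∈ M, (1 : ℝ) / m = ∑ m ∈ M.attach.image (fun m => (⟨m.1, h4 m.1 m.2⟩ : Nat.factoredNumbers F)),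
      invHom m.1 := by
    rw [Finset.sum_image]
    · rw [← Finset.sum_attach]
      apply Finset.sum_congr rfl
      intro m _
      show _ = ((m.1 : ℝ))⁻¹
      rw [one_div]
    · intro a _ b _ hab
      simp only [Subtype.mk.injEq] at hab
      exact Subtype.ext hab
  rw [h5]
  exact sum_le_hasSum _ (fun m _ => by
    show (0 : ℝ) ≤ ((m.1 : ℝ))⁻¹
    positivity) h2

/-- numbers `q * m` with `q > y` prime and `m` composed of primes of `F` -/
theorem primeD_count (F : Finset ℕ) (hF : ∀ q ∈ F, q.Prime) (D : ℝ) (h : ∏ p ∈ F, (1 - 1 / (p : ℝ))⁻¹ ≤ D)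
    (y H : ℕ) (hy : 2 ≤ y) :
    (((Icc 1 H).filter (fun k => ∃ q m : ℕ, q.Prime ∧ y < q ∧ k = q * m ∧
      ∀ p : ℕ, p.Prime → p ∣ m → p ∈ F)).card : ℝ) ≤ 10 * D * H / Real.log y := by
  set T : ℕ → Finset ℕ := fun m => ((Icc 1 (H / m)).filter (fun q => q.Prime ∧ y < q)).image (fun q => q * m) with hT
  set M : Finset ℕ := (Icc 1 H).filter (fun m => ∀ p : ℕ, p.Prime → p ∣ m → p ∈ F) with hMd
  have hly : 0 < Real.log y := Real.log_pos (by exact_mod_cast (by omega : 1 < y))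
  have h1 : (Icc 1 H).filter (fun k => ∃ q m : ℕ, q.Prime ∧ y < q ∧ k = q * m ∧
      ∀ p : ℕ, p.Prime → p ∣ m → p ∈ F) ⊆ M.biUnion T := by
    intro k hk
    rw [mem_filter, mem_Icc] at hk
    obtain ⟨⟨hk1, hkH⟩, q, m, hq, hyq, rfl, hm⟩ := hk
    have hm0 : m ≠ 0 := by rintro rfl; simp at hk1
    have hm1 : 0 < m := Nat.pos_of_ne_zero hm0
    rw [mem_biUnion]
    refine ⟨m, ?_, ?_⟩
    · rw [hMd, mem_filter, mem_Icc]
      refine ⟨⟨hm1, ?_⟩, hm⟩
      have : m ≤ q * m := Nat.le_mul_of_pos_left _ hq.pos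
      omega
    · rw [hT]
      simp only [mem_image, mem_filter, mem_Icc]
      exact ⟨q, ⟨⟨hq.pos, (Nat.le_div_iff_mul_le hm1).2 hkH⟩, hq, hyq⟩, rfl⟩
  have h2 : ∀ m ∈ M, ((T m).card : ℝ) ≤ 10 * H / Real.log y * (1 / m) := by
    intro m hm
    rw [hMd, mem_filter, mem_Icc] at hm
    have hm1 : 0 < m := hm.1.1
    have hmr : (0 : ℝ) < m := by exact_mod_cast hm1
    have h3 : ((T m).card : ℝ) ≤ (((Icc 1 (H / m)).filter (fun q => q.Prime ∧ y < q)).card : ℝ) := by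
      exact_mod_cast card_image_le
    refine h3.trans ?_
    by_cases hc : y < H / m
    · have h4 : (((Icc 1 (H / m)).filter (fun q => q.Prime ∧ y < q)).card : ℝ) ≤
        (((Icc 1 (H / m)).filter Nat.Prime).card : ℝ) := by
        apply Nat.cast_le.2; apply card_le_card
        intro q hq
        rw [mem_filter] at hq ⊢
        exact ⟨hq.1, hq.2.1⟩
      have h5 := primes_le (H / m) (by omega)
      have h6 : Real.log y ≤ Real.log ((H / m : ℕ) : ℝ) :=
        Real.log_le_log (by exact_mod_cast (by omega : 0 < y)) (by exact_mod_cast hc.le)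
      have h7 : ((H / m : ℕ) : ℝ) ≤ (H : ℝ) / m := Nat.cast_div_le
      calc (((Icc 1 (H / m)).filter (fun q => q.Prime ∧ y < q)).card : ℝ)
          ≤ 10 * ((H / m : ℕ) : ℝ) / Real.log ((H / m : ℕ) : ℝ) := h4.trans h5
        _ ≤ 10 * ((H : ℝ) / m) / Real.log y := by gcongr
        _ = _ := by ring
    · have h4 : (Icc 1 (H / m)).filter (fun q => q.Prime ∧ y < q) = ∅ := by
        apply filter_eq_empty_iff.2
        intro q hq h5
        rw [mem_Icc] at hq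
        omega
      rw [h4]
      simp only [card_empty, Nat.cast_zero]
      positivity
  calc (((Icc 1 H).filter (fun k => ∃ q m : ℕ, q.Prime ∧ y < q ∧ k = q * m ∧
      ∀ p : ℕ, p.Prime → p ∣ m → p ∈ F)).card : ℝ)
      ≤ ((M.biUnion T).card : ℝ) := by exact_mod_cast card_le_card h1
    _ ≤ ∑ m ∈ M, ((T m).card : ℝ) := by exact_mod_cast card_biUnion_le
    _ ≤ ∑ m ∈ M, 10 * H / Real.log y * (1 / (m : ℝ)) := sum_le_sum h2
    _ = 10 * H / Real.log y * ∑ m ∈ M, (1 : ℝ) / m := by rw [mul_sum]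
    _ ≤ 10 * H / Real.log y * D := by
        have := (harm_D F hF M (fun m hm => by
          rw [hMd, mem_filter, mem_Icc] at hm
          exact ⟨by omega, hm.2⟩)).trans h
        gcongr
    _ = _ := by ring

/-- the numbers of the window which are not removed by the class zero -/
theorem windowL_half (C₀ C₁ : ℝ) (hC₁ : 0 ≤ C₁) : ∃ C : ℝ, 0 < C ∧ ∃ y₀ : ℕ, ∀ y : ℕ, y₀ ≤ y → ∀ F : Finset ℕ,
    (∀ q ∈ F, q.Prime) → ∑ q ∈ F, (1 : ℝ) / q ≤ C₀ →
    ∑ q ∈ F.filter (fun q : ℕ => V0 y < Real.log q), (1 : ℝ) / q ≤ C₁ / Real.log y →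
    ∀ H : ℕ, y ≤ H → (H : ℝ) ≤ y * Real.exp (V0 y) →
    (((range (H + 1)).filter (fun k => ∀ p ∈ PQ y F, p ∉ GP y F → ¬ p ∣ k)).card : ℝ) *
      ∏ p ∈ GP y F, (1 - 1 / (p : ℝ)) ≤
      C * (1 + Real.log (H / y) / Real.log (Real.log y)) * (H * (Real.log (Real.log y)) ^ 2 /
        ((Real.log y) ^ 2 * Real.log (Real.log (Real.log y)))) := by
  obtain ⟨c₁, c₂, hc₁, hc₁₂, hV⟩ := cz_bounds
  obtain ⟨y₁, hsm⟩ := smooth_count
  obtain ⟨t₀, hev⟩ := ev_rec 0
  have hc₂ : 0 < c₂ := hc₁.trans_le hc₁₂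
  refine ⟨3 * ((C₁ + 2 + 10 * (Real.exp (2 * C₀) * (1 + c₂ / c₁))) * (c₂ / c₁ * 40) * Real.exp (2 * C₀)), by positivity,
    ⌈max y₁ (Real.exp (Real.exp t₀))⌉₊, fun y hyN F hF hFsum hFtail H hyH hHy => ?_⟩
  have hy : max y₁ (Real.exp (Real.exp t₀)) ≤ (y : ℝ) := (Nat.le_ceil _).trans (by exact_mod_cast hyN)
  have hyH' : (y : ℝ) ≤ H := by exact_mod_cast hyH
  have hsm' := hsm y ((le_max_left _ _).trans hy) H hyH'
  have hy' := (le_max_right _ _).trans hy
  have hy0 : (0 : ℝ) < y := (Real.exp_pos _).trans_le hy'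
  have hL1' : Real.exp t₀ ≤ Real.log y := by
    rw [← Real.log_exp (Real.exp t₀)]; exact Real.log_le_log (Real.exp_pos _) hy'
  have hly : 0 < Real.log y := (Real.exp_pos _).trans_le hL1'
  unfold V0 at hFtail hHy
  set τ := Real.log (Real.log y) with hτ
  have htt : t₀ ≤ τ := by
    rw [← Real.log_exp t₀]; exact Real.log_le_log (Real.exp_pos _) hL1'
  obtain ⟨h1, h2, h3, h4, h5, h6, h7K⟩ := hev τ htt
  have hLe : Real.log y = Real.exp τ := by rw [hτ, Real.exp_log hly]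
  have hye : (y : ℝ) = Real.exp (Real.exp τ) := by rw [← hLe, Real.exp_log hy0]
  set V0 := Real.log y * Real.log τ / (10 * τ) with hV0
  have ht0 : 0 < τ := by linarith
  have hlt0 : 0 < Real.log τ := by linarith
  have hV1 : 2 * τ ≤ V0 := by
    rw [hV0, le_div_iff₀ (by positivity), hLe]
    nlinarith [Real.exp_pos τ]
  have hV1le : V0 ≤ Real.log y := by
    rw [hV0, div_le_iff₀ (by positivity), hLe]
    nlinarith [Real.exp_pos τ]
  set v₀ : ℝ := (Real.log y) ^ 2 with hv₀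
  have hv₀e : v₀ = Real.exp (2 * τ) := by
    rw [hv₀, hLe, ← Real.exp_nat_mul]; push_cast; ring_nf
  have hv₀0 : 0 < v₀ := by positivity
  have hL100 : 100 ≤ Real.log y := by rw [hLe]; exact h4
  have hv₀big : 10000 ≤ v₀ := by rw [hv₀]; nlinarith
  have hv₀y : v₀ ≤ y := by
    rw [hv₀e, hye]; apply Real.exp_le_exp.2; linarith
  set u : ℕ := ⌊v₀⌋₊ with hu
  set v : ℕ := ⌊Real.exp V0⌋₊ with hv
  have huv : u ≤ v := by
    rw [hu, hv]; apply Nat.floor_le_floor; rw [hv₀e]; exact Real.exp_le_exp.2 hV1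
  have hu2 : 2 ≤ u := by
    rw [hu, Nat.le_floor_iff hv₀0.le]; push_cast; linarith
  have hvle : (v : ℝ) ≤ Real.exp V0 := Nat.floor_le (Real.exp_pos _).le
  have hule : (u : ℝ) ≤ v₀ := Nat.floor_le hv₀0.le
  have hv0 : (0 : ℝ) < v := by exact_mod_cast (by omega : 0 < v)
  have hu0 : (0 : ℝ) < u := by exact_mod_cast (by omega : 0 < u)
  have hlu : Real.log u ≤ 2 * τ := by
    rw [← Real.log_exp (2 * τ), ← hv₀e]; exact Real.log_le_log hu0 hule
  have hlu0 : 0 < Real.log u := Real.log_pos (by exact_mod_cast (by omega : 1 < u))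
  have hlv0 : 0 < Real.log v := Real.log_pos (by exact_mod_cast (by omega : 1 < v))
  have hlv : V0 / 2 ≤ Real.log v := by
    have h7 : Real.exp V0 < v + 1 := Nat.lt_floor_add_one _
    have h8 : (2 : ℝ) ≤ v := by exact_mod_cast (by omega : 2 ≤ v)
    have h9 : Real.exp V0 ≤ (v : ℝ) ^ 2 := by nlinarith
    have h10 := Real.log_le_log (Real.exp_pos _) h9
    rw [Real.log_exp, Real.log_pow] at h10
    push_cast at h10; linarith
  have hvy : (v : ℝ) ≤ y := hvle.trans (by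
    rw [← Real.exp_log hy0]; exact Real.exp_le_exp.2 hV1le)
  have hy2 : 2 ≤ y := by
    have : (2 : ℝ) ≤ y := by linarith
    exact_mod_cast this
  have hH0 : (0 : ℝ) < H := by linarith
  set Lr : ℝ := Real.log (H / y) / τ with hLr
  have hHy1 : (1 : ℝ) ≤ H / y := by rw [one_le_div hy0]; exact hyH'
  have hLr0 : 0 ≤ Lr := div_nonneg (Real.log_nonneg hHy1) ht0.le
  have hHyV : (H : ℝ) / y ≤ Real.exp V0 := by rw [div_le_iff₀ hy0, mul_comm]; exact hHy
  have hexpy : Real.exp V0 ≤ y := by rw [← Real.exp_log hy0]; exact Real.exp_le_exp.2 hV1le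
  -- the primes of the greedy step
  set P0 : Finset ℕ := (Icc 1 v).filter (fun p : ℕ => p.Prime ∧ v₀ < (p : ℝ)) with hP0
  set E0 : Finset ℕ := P0.filter (fun p => p ∈ F) with hE0
  set P : Finset ℕ := P0 \ E0 with hPdef
  have hP0p : ∀ p ∈ P0, p.Prime ∧ 3 ≤ p := by
    intro p hp
    rw [hP0, mem_filter] at hp
    refine ⟨hp.2.1, ?_⟩
    have : (3 : ℝ) < p := by linarith [hp.2.2]
    have : 3 < p := by exact_mod_cast this
    omega
  have hP0v : ∀ p ∈ P0, v₀ < (p : ℝ) := fun p hp => (mem_filter.1 hp).2.2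
  have hP0v' : ∀ p ∈ P0, p ≤ v := fun p hp => (mem_Icc.1 (mem_filter.1 hp).1).2
  have hPP0 : P ⊆ P0 := sdiff_subset
  have hPmem : ∀ p : ℕ, p.Prime → (p ∈ P ↔ v₀ < (p : ℝ) ∧ Real.log p ≤ V0 ∧ p ∉ F) := by
    intro p hp
    have hp0 : (0 : ℝ) < p := by exact_mod_cast hp.pos
    have hm0 : p ∈ P0 ↔ (v₀ < (p : ℝ) ∧ Real.log p ≤ V0) := by
      rw [hP0, mem_filter, mem_Icc, Real.log_le_iff_le_exp hp0, hv,
        Nat.le_floor_iff (Real.exp_pos _).le]
      constructor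
      · rintro ⟨⟨_, h⟩, _, h'⟩; exact ⟨h', h⟩
      · rintro ⟨h, h'⟩; exact ⟨⟨hp.pos, h'⟩, hp, h⟩
    have hmE : p ∈ E0 ↔ (p ∈ P0 ∧ p ∈ F) := by rw [hE0, mem_filter]
    have hmP : p ∈ P ↔ (p ∈ P0 ∧ p ∉ E0) := by rw [hPdef, mem_sdiff]
    rw [hmP, hmE, hm0]
    by_cases c1 : v₀ < (p : ℝ) <;> by_cases c2 : Real.log p ≤ V0 <;> by_cases c3 : p ∈ F <;>
      simp [c1, c2, c3]
  have hPy : ∀ p ∈ P, p ≤ y := by
    intro p hpP
    have h7 := hP0v' p (hPP0 hpP)
    have : (p : ℝ) ≤ y := le_trans (by exact_mod_cast h7) hvy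
    exact_mod_cast this
  set Fm : Finset ℕ := (Icc 1 ⌊(H : ℝ) / y⌋₊).filter (fun p : ℕ => p.Prime ∧ v₀ < (p : ℝ)) with hFm
  have hFmp : ∀ q ∈ Fm, q.Prime := fun q hq => (mem_filter.1 hq).2.1
  have hFmprod : ∏ p ∈ Fm, (1 - 1 / (p : ℝ))⁻¹ ≤ (1 + c₂ / c₁) * (1 + Lr) := by
    set w : ℕ := ⌊(H : ℝ) / y⌋₊ with hw
    have hc21 : 0 < c₂ / c₁ := by positivity
    by_cases huw : u ≤ w
    · have h7 : Pz w = Pz u ∪ Fm := by
        ext p
        rw [mem_union, mem_Pz, mem_Pz, hFm, mem_filter, mem_Icc, hu, Nat.le_floor_iff hv₀0.le]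
        constructor
        · rintro ⟨hp, hpv⟩
          by_cases h : (p : ℝ) ≤ v₀
          · exact Or.inl ⟨hp, h⟩
          · exact Or.inr ⟨⟨hp.pos, hpv⟩, hp, not_le.1 h⟩
        · rintro (⟨hp, hpu⟩ | ⟨⟨_, hpv⟩, hp, _⟩)
          · refine ⟨hp, ?_⟩
            have : p ≤ u := by rw [hu, Nat.le_floor_iff hv₀0.le]; exact hpu
            omega
          · exact ⟨hp, hpv⟩
      have h8 : Disjoint (Pz u) Fm := by
        rw [Finset.disjoint_left]
        intro p hp hpS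
        have h9 := (mem_Pz.1 hp).2
        rw [hu, Nat.le_floor_iff hv₀0.le] at h9
        have := (mem_filter.1 hpS).2.2
        linarith
      have hVw : V w = V u * ∏ p ∈ Fm, (1 - 1 / (p : ℝ)) := by
        unfold V
        rw [h7, prod_union h8]
      have hVw0 := V_pos w
      have hVu0 := V_pos u
      rw [prod_inv_distrib]
      have h9 : (∏ p ∈ Fm, (1 - 1 / (p : ℝ)))⁻¹ = V u / V w := by
        rw [hVw, inv_eq_one_div]
        have h10 : 0 < ∏ p ∈ Fm, (1 - 1 / (p : ℝ)) :=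
          prod_pos fun p hp => one_sub_inv_pos (hFmp p hp)
        field_simp
      rw [h9]
      have h11 := (hV u hu2).2
      have h12 := (hV w (by omega)).1
      have hlw : Real.log w ≤ Real.log (H / y) := Real.log_le_log (by exact_mod_cast (by omega : 0 < w))
        (Nat.floor_le (by positivity))
      have hlu' : τ ≤ Real.log u := by
        have h13 : v₀ < (u : ℝ) + 1 := Nat.lt_floor_add_one _
        have h14 : Real.log y ≤ u := by
          rw [hv₀] at h13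
          nlinarith
        rw [hτ]
        exact Real.log_le_log hly h14
      have hlw0 : 0 < Real.log w := Real.log_pos (by exact_mod_cast (by omega : 1 < w))
      rw [div_le_iff₀ hVw0]
      have h15 : V u * τ ≤ c₂ := le_trans (mul_le_mul_of_nonneg_left hlu' hVu0.le) h11
      have h16 : c₁ ≤ V w * Real.log (H / y) := h12.trans (mul_le_mul_of_nonneg_left hlw hVw0.le)
      have h17 : V u ≤ c₂ / τ := by rw [le_div_iff₀ ht0]; exact h15
      have h18 : c₂ / τ ≤ c₂ / c₁ * (Lr * V w) := by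
        rw [hLr]
        calc c₂ / τ = c₂ / c₁ * (c₁ / τ) := by field_simp
          _ ≤ c₂ / c₁ * ((V w * Real.log (H / y)) / τ) := by gcongr
          _ = _ := by ring
      have h19 : c₂ / c₁ * (Lr * V w) ≤ (1 + c₂ / c₁) * (1 + Lr) * V w := by
        have : 0 ≤ Lr * V w := mul_nonneg hLr0 hVw0.le
        have : 0 < c₂ / c₁ * V w := by positivity
        nlinarith
      linarith
    · have h7 : Fm = ∅ := by
        rw [hFm]
        apply filter_eq_empty_iff.2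
        rintro p hp ⟨_, hp2⟩
        rw [mem_Icc] at hp
        have h8 : p ≤ u := by omega
        have h9 : (p : ℝ) ≤ u := by exact_mod_cast h8
        linarith
      rw [h7, prod_empty]
      have : 0 ≤ c₂ / c₁ * Lr := by positivity
      nlinarith
  have hFF : ∏ p ∈ F ∪ Fm, (1 - 1 / (p : ℝ))⁻¹ ≤ Real.exp (2 * C₀) * ((1 + c₂ / c₁) * (1 + Lr)) := by
    have hone : ∀ q : ℕ, q.Prime → 1 ≤ (1 - 1 / (q : ℝ))⁻¹ := by
      intro q hq
      have h1 := one_sub_inv_pos hq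
      rw [one_le_inv₀ h1]
      have : (0 : ℝ) ≤ 1 / (q : ℝ) := by positivity
      linarith
    have h7 : ∏ p ∈ F ∪ Fm, (1 - 1 / (p : ℝ))⁻¹ ≤ (∏ p ∈ F, (1 - 1 / (p : ℝ))⁻¹) * ∏ p ∈ Fm, (1 - 1 / (p : ℝ))⁻¹ := by
      rw [← prod_union_inter]
      apply le_mul_of_one_le_right
      · apply prod_nonneg
        intro p hp
        rw [mem_union] at hp
        rcases hp with h | h
        · exact zero_le_one.trans (hone p (hF p h))
        · exact zero_le_one.trans (hone p (hFmp p h))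
      · have h8 : ∏ p ∈ F ∩ Fm, (1 : ℝ) ≤ ∏ p ∈ F ∩ Fm, (1 - 1 / (p : ℝ))⁻¹ :=
          prod_le_prod (fun _ _ => zero_le_one) (fun p hp => hone p (hF p (mem_inter.1 hp).1))
        rwa [prod_const_one] at h8
    refine h7.trans ?_
    apply mul_le_mul (inv_prod_le F hF C₀ hFsum) hFmprod _ (Real.exp_pos _).le
    apply prod_nonneg
    intro p hp
    exact zero_le_one.trans (hone p (hFmp p hp))
  set R := (range (H + 1)).filter (fun k => ∀ p : ℕ, p.Prime → p ≤ y → p ∉ F →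
    p ∉ P → ¬ p ∣ k) with hR
  -- size of R
  have hRsub : R ⊆ {0} ∪ (((Icc 1 H).filter (fun k => ∃ s ∈ F.filter (fun q : ℕ => V0 < Real.log q), s ∣ k)) ∪
      (((Icc 1 H).filter (fun k => ∃ q m : ℕ, q.Prime ∧ y < q ∧ k = q * m ∧
        ∀ p : ℕ, p.Prime → p ∣ m → p ∈ F ∪ Fm)) ∪
      (Finset.Icc 1 H).filter (fun m => ∀ p : ℕ, p.Prime → p ∣ m → Real.log p ≤ V0))) := by
    intro k hk
    rw [hR, mem_filter, mem_range] at hk
    obtain ⟨hkH, hk2⟩ := hk
    rw [mem_union, mem_singleton]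
    by_cases hk0 : k = 0
    · exact Or.inl hk0
    right
    have hk1 : 1 ≤ k := by omega
    have hkI : k ∈ Icc 1 H := by rw [mem_Icc]; omega
    rw [mem_union, mem_union]
    by_cases hA1 : ∃ s ∈ F.filter (fun q : ℕ => V0 < Real.log q), s ∣ k
    · exact Or.inl (mem_filter.2 ⟨hkI, hA1⟩)
    right
    push Not at hA1
    have hfac : ∀ q : ℕ, q.Prime → q ∣ k → (q ∈ F ∨ q ∈ P ∨ y < q) := by
      intro q hq hd
      by_contra hcon
      push Not at hcon
      exact hk2 q hq hcon.2.2 hcon.1 hcon.2.1 hd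
    by_cases hB1 : ∃ q : ℕ, q.Prime ∧ q ∣ k ∧ y < q
    · left
      rw [mem_filter]
      refine ⟨hkI, ?_⟩
      obtain ⟨q, hq, ⟨m, rfl⟩, hyq⟩ := hB1
      have hm0 : m ≠ 0 := by rintro rfl; simp at hk0
      have hm1 : (0 : ℝ) < m := by exact_mod_cast Nat.pos_of_ne_zero hm0
      have hmH : (m : ℝ) ≤ H / y := by
        have h7 : (q : ℝ) * m ≤ H := by exact_mod_cast (by omega : q * m ≤ H)
        have h10 : (y : ℝ) < q := by exact_mod_cast hyq
        rw [le_div_iff₀ hy0]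
        calc (m : ℝ) * y ≤ m * q := by gcongr
          _ = q * m := mul_comm _ _
          _ ≤ H := h7
      refine ⟨q, m, hq, hyq, rfl, fun r hr hrd => ?_⟩
      have hrm : (r : ℝ) ≤ m := by exact_mod_cast Nat.le_of_dvd (Nat.pos_of_ne_zero hm0) hrd
      rw [mem_union]
      rcases hfac r hr (hrd.mul_left q) with h | h | h
      · exact Or.inl h
      · right
        rw [hFm, mem_filter, mem_Icc]
        exact ⟨⟨hr.pos, Nat.le_floor (hrm.trans hmH)⟩, hr, hP0v r (hPP0 h)⟩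
      · have : (y : ℝ) < r := by exact_mod_cast h
        linarith
    · right
      push Not at hB1
      rw [mem_filter]
      refine ⟨hkI, fun q hq hd => ?_⟩
      rcases hfac q hq hd with h | h | h
      · by_contra hcon
        push Not at hcon
        exact hA1 q (mem_filter.2 ⟨h, hcon⟩) hd
      · exact ((hPmem q hq).1 h).2.1
      · have := hB1 q hq hd; omega
  have hRcard : (R.card : ℝ) ≤ (C₁ + 2 + 10 * (Real.exp (2 * C₀) * (1 + c₂ / c₁))) * (1 + Lr) * H / Real.log y := by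
    have e1 := mult_count (F.filter (fun q : ℕ => V0 < Real.log q))
      (fun q hq => (hF q (mem_filter.1 hq).1).pos) H
    have e2 := primeD_count (F ∪ Fm) (fun q hq => (mem_union.1 hq).elim (hF q) (hFmp q)) _ hFF y H hy2
    have h7 : R.card ≤ 1 + (((Icc 1 H).filter (fun k => ∃ s ∈ F.filter (fun q : ℕ => V0 < Real.log q), s ∣ k)).card +
      (((Icc 1 H).filter (fun k => ∃ q m : ℕ, q.Prime ∧ y < q ∧ k = q * m ∧
        ∀ p : ℕ, p.Prime → p ∣ m → p ∈ F ∪ Fm)).card +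
      ((Finset.Icc 1 H).filter (fun m => ∀ p : ℕ, p.Prime → p ∣ m → Real.log p ≤ V0)).card)) := by
      refine (card_le_card hRsub).trans ((card_union_le _ _).trans ?_)
      rw [card_singleton]
      apply Nat.add_le_add_left
      refine (card_union_le _ _).trans ?_
      apply Nat.add_le_add_left
      exact card_union_le _ _
    have h8 : (R.card : ℝ) ≤ 1 + ((((Icc 1 H).filter (fun k => ∃ s ∈ F.filter (fun q : ℕ => V0 < Real.log q), s ∣ k)).card : ℝ) +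
      ((((Icc 1 H).filter (fun k => ∃ q m : ℕ, q.Prime ∧ y < q ∧ k = q * m ∧
        ∀ p : ℕ, p.Prime → p ∣ m → p ∈ F ∪ Fm)).card : ℝ) +
      (((Finset.Icc 1 H).filter (fun m => ∀ p : ℕ, p.Prime → p ∣ m → Real.log p ≤ V0)).card : ℝ))) := by
      exact_mod_cast h7
    have h9 : (H : ℝ) * ∑ q ∈ F.filter (fun q : ℕ => V0 < Real.log q), (1 : ℝ) / q ≤ C₁ * (H / Real.log y) := by
      calc (H : ℝ) * ∑ q ∈ F.filter (fun q : ℕ => V0 < Real.log q), (1 : ℝ) / q ≤ H * (C₁ / Real.log y) := by gcongr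
        _ = _ := by ring
    have h11 : (H : ℝ) / (Real.log y) ^ 3 ≤ H / Real.log y := by
      apply div_le_div_of_nonneg_left hH0.le hly
      nlinarith [sq_nonneg (Real.log y)]
    have h14 : (1 : ℝ) ≤ H / Real.log y := by
      rw [one_le_div hly]
      have := Real.log_le_sub_one_of_pos hy0
      linarith
    have h12 : (C₁ + 2 + 10 * (Real.exp (2 * C₀) * (1 + c₂ / c₁))) * (1 + Lr) * H / Real.log y =
      (C₁ + 2) * (1 + Lr) * (H / Real.log y) +
      10 * (Real.exp (2 * C₀) * ((1 + c₂ / c₁) * (1 + Lr))) * H / Real.log y := by ring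
    have h13 : (C₁ + 2) * (H / Real.log y) ≤ (C₁ + 2) * (1 + Lr) * (H / Real.log y) := by
      have : 0 ≤ (C₁ + 2) * Lr * (H / Real.log y) := by positivity
      nlinarith
    rw [h12]
    linarith
  -- the product over P0
  have hPv : V v = V u * ∏ p ∈ P0, (1 - 1 / (p : ℝ)) := by
    have h7 : Pz v = Pz u ∪ P0 := by
      ext p
      rw [mem_union, mem_Pz, mem_Pz, hP0, mem_filter, mem_Icc, hu, Nat.le_floor_iff hv₀0.le]
      constructor
      · rintro ⟨hp, hpv⟩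
        by_cases h : (p : ℝ) ≤ v₀
        · exact Or.inl ⟨hp, h⟩
        · exact Or.inr ⟨⟨hp.pos, hpv⟩, hp, not_le.1 h⟩
      · rintro (⟨hp, hpu⟩ | ⟨⟨_, hpv⟩, hp, _⟩)
        · refine ⟨hp, ?_⟩
          have : p ≤ u := by rw [hu, Nat.le_floor_iff hv₀0.le]; exact hpu
          omega
        · exact ⟨hp, hpv⟩
    have h8 : Disjoint (Pz u) P0 := by
      rw [Finset.disjoint_left]
      intro p hp hpS
      have h9 := (mem_Pz.1 hp).2
      rw [hu, Nat.le_floor_iff hv₀0.le] at h9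
      have := hP0v p hpS
      linarith
    unfold V
    rw [h7, prod_union h8]
  have hP0prod : ∏ p ∈ P0, (1 - 1 / (p : ℝ)) ≤ c₂ / c₁ * 40 * (τ ^ 2 / (Real.log y * Real.log τ)) := by
    have h7 := (hV v (by omega)).2
    have h8 := (hV u hu2).1
    rw [hPv] at h7
    have hVu := V_pos u
    have h9 : c₁ * (∏ p ∈ P0, (1 - 1 / (p : ℝ))) * (V0 / 2) ≤ c₂ * (2 * τ) := by
      have hnn : 0 ≤ ∏ p ∈ P0, (1 - 1 / (p : ℝ)) :=
        Finset.prod_nonneg fun p hp => (one_sub_inv_pos (hP0p p hp).1).le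
      calc c₁ * (∏ p ∈ P0, (1 - 1 / (p : ℝ))) * (V0 / 2)
          ≤ (V u * Real.log u) * (∏ p ∈ P0, (1 - 1 / (p : ℝ))) * Real.log v := by
            gcongr
        _ = (V u * (∏ p ∈ P0, (1 - 1 / (p : ℝ))) * Real.log v) * Real.log u := by ring
        _ ≤ c₂ * Real.log u := by gcongr
        _ ≤ _ := by gcongr
    have hV0pos : 0 < V0 := by linarith
    have h10 : ∏ p ∈ P0, (1 - 1 / (p : ℝ)) ≤ c₂ * (2 * τ) / (c₁ * (V0 / 2)) := by
      rw [le_div_iff₀ (by positivity)]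
      linarith
    refine h10.trans (le_of_eq ?_)
    rw [hV0]
    field_simp
    ring
  have hE0sum : ∑ p ∈ E0, 1 / (p : ℝ) ≤ C₀ := by
    refine le_trans ?_ hFsum
    apply sum_le_sum_of_subset_of_nonneg
    · intro p hp
      rw [hE0, mem_filter] at hp
      exact hp.2
    · intro _ _ _; positivity
  have hPprod : ∏ p ∈ P, (1 - 1 / (p : ℝ)) ≤ (∏ p ∈ P0, (1 - 1 / (p : ℝ))) * Real.exp (2 * C₀) :=
    prod_drop' P0 E0 hP0p (filter_subset _ _) C₀ hE0sum
  have hPnn : 0 ≤ ∏ p ∈ P, (1 - 1 / (p : ℝ)) :=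
    Finset.prod_nonneg fun p hp => (one_sub_inv_pos (hP0p p (hPP0 hp)).1).le
  have hGP : GP y F = P := by
    ext p
    rw [mem_GP, mem_PQ]
    constructor
    · rintro ⟨⟨h7, h8, h9⟩, h10, h11⟩
      exact (hPmem p h8).2 ⟨h10, h11, h9⟩
    · intro hp
      have hpp := (hP0p p (hPP0 hp)).1
      obtain ⟨h7, h8, h9⟩ := (hPmem p hpp).1 hp
      exact ⟨⟨hPy p hp, hpp, h9⟩, h7, h8⟩
  have hRe : (range (H + 1)).filter (fun k => ∀ p ∈ PQ y F, p ∉ GP y F → ¬ p ∣ k) = R := by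
    rw [hR, hGP]
    ext k
    rw [mem_filter, mem_filter]
    constructor
    · rintro ⟨h7, h8⟩
      exact ⟨h7, fun p hp hpy hpF hpP => h8 p (mem_PQ.2 ⟨hpy, hp, hpF⟩) hpP⟩
    · rintro ⟨h7, h8⟩
      exact ⟨h7, fun p hp hpP => h8 p (mem_PQ.1 hp).2.1 (mem_PQ.1 hp).1 (mem_PQ.1 hp).2.2 hpP⟩
  rw [hRe, hGP]
  have hτ0 : 0 < τ ^ 2 / (Real.log y * Real.log τ) := by positivity
  set D' := C₁ + 2 + 10 * (Real.exp (2 * C₀) * (1 + c₂ / c₁)) with hD'
  have hD'0 : 0 < D' := by positivity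
  calc (R.card : ℝ) * ∏ p ∈ P, (1 - 1 / (p : ℝ))
      ≤ (D' * (1 + Lr) * H / Real.log y) *
          ((c₂ / c₁ * 40 * (τ ^ 2 / (Real.log y * Real.log τ))) * Real.exp (2 * C₀)) := by
        have h7 : ∏ p ∈ P, (1 - 1 / (p : ℝ)) ≤
            (c₂ / c₁ * 40 * (τ ^ 2 / (Real.log y * Real.log τ))) * Real.exp (2 * C₀) :=
          hPprod.trans (by gcongr)
        gcongr
    _ = (D' * (c₂ / c₁ * 40) * Real.exp (2 * C₀)) * (1 + Lr) * (H * τ ^ 2 /
          ((Real.log y) ^ 2 * Real.log τ)) := by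
        field_simp
    _ ≤ 3 * (D' * (c₂ / c₁ * 40) * Real.exp (2 * C₀)) * (1 + Lr) * (H * τ ^ 2 /
          ((Real.log y) ^ 2 * Real.log τ)) := by
        apply mul_le_mul_of_nonneg_right _ (by positivity)
        apply mul_le_mul_of_nonneg_right _ (by positivity)
        have : 0 ≤ D' * (c₂ / c₁ * 40) * Real.exp (2 * C₀) := by positivity
        linarith

/-- the two-sided window -/
theorem windowL (C₀ C₁ : ℝ) (hC₁ : 0 ≤ C₁) : ∃ C : ℝ, 0 < C ∧ ∃ y₀ : ℕ, ∀ y : ℕ, y₀ ≤ y → ∀ F : Finset ℕ,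
    (∀ q ∈ F, q.Prime) → ∑ q ∈ F, (1 : ℝ) / q ≤ C₀ →
    ∑ q ∈ F.filter (fun q : ℕ => V0 y < Real.log q), (1 : ℝ) / q ≤ C₁ / Real.log y →
    ∀ H : ℕ, y ≤ H → (H : ℝ) ≤ y * Real.exp (V0 y) →
    (((Icc (-(H : ℤ)) H).filter (fun k => ∀ p ∈ PQ y F, p ∉ GP y F → ¬ (p : ℤ) ∣ k)).card : ℝ) *
      ∏ p ∈ GP y F, (1 - 1 / (p : ℝ)) ≤
      C * (1 + Real.log (H / y) / Real.log (Real.log y)) * (H * (Real.log (Real.log y)) ^ 2 /
        ((Real.log y) ^ 2 * Real.log (Real.log (Real.log y)))) := by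
  obtain ⟨C, hC, y₀, h⟩ := windowL_half C₀ C₁ hC₁
  refine ⟨2 * C, by positivity, y₀, fun y hy F hF hFs hFt H hH1 hH2 => ?_⟩
  have h1 := h y hy F hF hFs hFt H hH1 hH2
  set R := (range (H + 1)).filter (fun k => ∀ p ∈ PQ y F, p ∉ GP y F → ¬ p ∣ k) with hR
  have hcard : ((Icc (-(H : ℤ)) H).filter (fun k => ∀ p ∈ PQ y F, p ∉ GP y F → ¬ (p : ℤ) ∣ k)).card ≤
      2 * R.card := by
    have hsub : (Icc (-(H : ℤ)) H).filter (fun k => ∀ p ∈ PQ y F, p ∉ GP y F → ¬ (p : ℤ) ∣ k) ⊆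
        R.image (fun k : ℕ => (k : ℤ)) ∪ R.image (fun k : ℕ => -(k : ℤ)) := by
      intro k hk
      rw [mem_filter, mem_Icc] at hk
      obtain ⟨⟨hk1, hk2⟩, hk3⟩ := hk
      have hm : k.natAbs ∈ R := by
        rw [hR, mem_filter, mem_range]
        refine ⟨by omega, fun p hp hpG hd => hk3 p hp hpG ?_⟩
        exact Int.natCast_dvd.2 hd
      rw [mem_union, mem_image, mem_image]
      rcases le_total 0 k with h0 | h0
      · exact Or.inl ⟨k.natAbs, hm, by omega⟩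
      · exact Or.inr ⟨k.natAbs, hm, by omega⟩
    refine (card_le_card hsub).trans ((card_union_le _ _).trans ?_)
    have e1 : (R.image (fun k : ℕ => (k : ℤ))).card ≤ R.card := card_image_le
    have e2 : (R.image (fun k : ℕ => -(k : ℤ))).card ≤ R.card := card_image_le
    omega
  have hprod : 0 ≤ ∏ p ∈ GP y F, (1 - 1 / (p : ℝ)) :=
    prod_nonneg fun p hp => (one_sub_pos (mem_PQ.1 (mem_GP.1 hp).1).2.1).le
  have hcard' : (((Icc (-(H : ℤ)) H).filter (fun k => ∀ p ∈ PQ y F, p ∉ GP y F → ¬ (p : ℤ) ∣ k)).card : ℝ) ≤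
      2 * R.card := by exact_mod_cast hcard
  calc (((Icc (-(H : ℤ)) H).filter (fun k => ∀ p ∈ PQ y F, p ∉ GP y F → ¬ (p : ℤ) ∣ k)).card : ℝ) *
      ∏ p ∈ GP y F, (1 - 1 / (p : ℝ))
      ≤ (2 * R.card) * ∏ p ∈ GP y F, (1 - 1 / (p : ℝ)) := mul_le_mul_of_nonneg_right hcard' hprod
    _ = 2 * ((R.card : ℝ) * ∏ p ∈ GP y F, (1 - 1 / (p : ℝ))) := by ring
    _ ≤ 2 * (C * (1 + Real.log (H / y) / Real.log (Real.log y)) * (H * (Real.log (Real.log y)) ^ 2 /
        ((Real.log y) ^ 2 * Real.log (Real.log (Real.log y))))) := by linarith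
    _ = _ := by ring

end Pool.Agent.H22.KG
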